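import Pool.Agent.P.MP_80466e_an.Hd.Cell

/-!
From inequalities for smooth periodic functions to the Sobolev space and back.
-/

set_option autoImplicit false

noncomputable section

namespace Pool.Agent.P.MP_80466e_an.Hd

open MeasureTheory Filter Topology Set

variable {n : ℕ}

/-- A Sobolev type inequality for smooth periodic functions. -/
def Sm (a q F g : E n → ℝ) (M Λ : ℝ) : Prop :=
  ∀ u : E n → ℝ, ContDiff ℝ 1 u → Per u → ∀ τ : ℝ, 0 < τ →
    τ ^ pe n + M * |∫ x in cell n, g x * u x| ^ pe n ≤ ∫ x in cell n, F x * |u x| ^ pe n →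
      Λ * τ ^ 2 ≤ (∫ x in cell n, a x * gsq u x) + ∫ x in cell n, q x * u x ^ 2

/-- The inequality on the flat torus with potential `V` and weight `f`. -/
def FW (V f : E n → ℝ) (Λ : ℝ) : Prop :=
  ∀ u : E n → ℝ, ContDiff ℝ 1 u → Per u → ∀ τ : ℝ, 0 < τ →
    τ ^ pe n ≤ ∫ x in cell n, f x * |u x| ^ pe n →
      Λ * τ ^ 2 ≤ (∫ x in cell n, gsq u x) + ∫ x in cell n, V x * u x ^ 2

variable {a q F g V f φ h w : E n → ℝ} {G : Fin n → E n → ℝ} {M Λ : ℝ}

theorem Sm.shift (H : Sm a q F g M Λ) (pa : Per a) (pq : Per q) (pF : Per F) (pg : Per g)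
    (P : E n) : Sm (fun x => a (x + P)) (fun x => q (x + P)) (fun x => F (x + P))
      (fun x => g (x + P)) M Λ := by
  intro u hu pu τ hτ h
  have pu' := per_shift pu (-P)
  have key : ∀ {b U : E n → ℝ}, Per b → Per U →
      ∫ x in cell n, b x * U (x + -P) = ∫ x in cell n, b (x + P) * U x := fun {b U} pb pU => by
    rw [← cell_shift (F := fun x => b x * U (x + -P))
      (fun x i => by simp only [pb x i, per_shift pU (-P) x i]) P]
    simp only [add_neg_cancel_right]
  have := H (fun x => u (x + -P)) (hu.comp (contDiff_id.add contDiff_const)) pu' τ hτ (by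
    rwa [key pg pu, key (U := fun x => |u x| ^ pe n) pF fun x i => by simp only [pu x i]])
  rwa [show gsq (fun x => u (x + -P)) = fun x => gsq u (x + -P) from
    funext fun x => by simp only [gsq, D_shift], key pa (per_gsq pu),
    key (U := fun x => u x ^ 2) pq fun x i => by simp only [pu x i]] at this

theorem fw_iff : FW V f Λ ↔ Sm (fun _ => 1) V f (fun _ => 0) 0 Λ := by simp [FW, Sm]

theorem FW.shift (H : FW V f Λ) (pV : Per V) (pf : Per f) (P : E n) :
    FW (fun x => V (x + P)) (fun x => f (x + P)) Λ :=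
  fw_iff.2 ((fw_iff.1 H).shift (fun _ _ => rfl) pV pf (fun _ _ => rfl) P)

theorem per_mol (hw : Per w) (m : ℕ) : Per (mol m w) := fun x i => by
  simp only [mol_eq, add_sub_right_comm, hw _ i]

theorem mol_c1 (hw : H1 w G) (m : ℕ) : ContDiff ℝ 1 (mol m w) :=
  (mol_smooth m (locInt_of_L2 hw.L2_w).1).of_le le_top1

theorem cell_up (hq : Continuous q) (pq : Per q) (pw : Per w) (w1 : LocallyIntegrable w)
    (w2 : LocallyIntegrable fun x => w x ^ 2) {δ : ℝ} (hδ : 0 < δ) : ∀ᶠ m in atTop,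
    ∫ x in cell n, q x * mol m w x ^ 2 ≤ (∫ x in cell n, q x * w x ^ 2) + 2 * δ := by
  obtain ⟨θ, h1, h2, -, -, h5⟩ := exists_part n
  filter_upwards [mol_upper_signed (a := fun x => θ x * q x) (h1.continuous.mul hq) h2.mul_right
    w1 w2 hδ] with m hm
  simp only [mul_assoc] at hm
  rwa [part_eq h1.continuous h2 h5 (Φ := fun x => q x * mol m w x ^ 2)
    (fun x i => by simp only [pq x i, per_mol pw m x i])
    (hq.mul ((mol_smooth m w1).continuous.pow 2)).locallyIntegrable,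
    part_eq h1.continuous h2 h5 (Φ := fun x => q x * w x ^ 2)
    (fun x i => by simp only [pq x i, pw x i]) (w2.continuous_mul hq)] at hm

theorem up (ha : Continuous a) (hq : Continuous q) (pa : Per a) (pq : Per q) (hw : H1 w G)
    {δ : ℝ} (hδ : 0 < δ) : ∀ᶠ m in atTop,
    (∫ x in cell n, a x * gsq (mol m w) x) + ∫ x in cell n, q x * mol m w x ^ 2 ≤
      (∫ x in cell n, a x * ∑ i, G i x ^ 2) + (∫ x in cell n, q x * w x ^ 2) + δ := by
  obtain ⟨w1, w2⟩ := locInt_of_L2 hw.L2_w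
  have G1 := fun i => (locInt_of_L2 (hw.L2_G i)).1
  have G2 := fun i => (locInt_of_L2 (hw.L2_G i)).2
  have hd : 0 < δ / (2 * n + 2) := by positivity
  filter_upwards [cell_up hq pq hw.per_w w1 w2 hd, eventually_all.2 fun i =>
    cell_up ha pa (hw.per_G i) (G1 i) (G2 i) hd] with m h1 h2
  have s3 := Finset.sum_le_sum fun i (_ : i ∈ Finset.univ) => h2 i
  rw [Finset.sum_add_distrib, ← integral_finsetSum _ fun i _ => int_cell
    (F := fun x => a x * mol m (G i) x ^ 2) (ha.mul ((mol_smooth m (G1 i)).continuous.pow 2)),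
    ← integral_finsetSum _ fun i _ =>
    integrableOn_cell ((G2 i).continuous_mul ha)] at s3
  simp only [Finset.sum_const, Finset.card_univ, Fintype.card_fin, nsmul_eq_mul,
    ← Finset.mul_sum] at s3
  have s4 : (n : ℝ) * (2 * (δ / (2 * n + 2))) + 2 * (δ / (2 * n + 2)) = δ := by field_simp
  simp only [gsq, D_mol m w1 hw.weak]
  linarith

theorem Sm.weak (hn : 3 ≤ n) (H : Sm a q F g M Λ) (ha : Continuous a) (hq : Continuous q)
    (hF : Continuous F) (hg : Continuous g) (pa : Per a) (pq : Per q) (pg : Per g)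
    (F0 : ∀ x, 0 ≤ F x) (hw : H1 w G) {τ : ℝ} (hτ : 0 < τ)
    (ht : ENNReal.ofReal (τ ^ pe n + M * |∫ x in cell n, g x * w x| ^ pe n) <
      ∫⁻ x in cell n, ENNReal.ofReal (F x * |w x| ^ pe n)) :
    Λ * τ ^ 2 ≤ (∫ x in cell n, a x * ∑ i, G i x ^ 2) + ∫ x in cell n, q x * w x ^ 2 := by
  obtain ⟨r, r0, r1, r2⟩ := ENNReal.lt_iff_exists_real_btwn.1 ht
  have w1 := (locInt_of_L2 hw.L2_w).1
  have cp : Continuous fun t : ℝ => |t| ^ pe n :=
    continuous_abs.rpow_const fun _ => Or.inr (pe_pos hn).le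
  have e1 : ∀ᶠ m in atTop, r ≤ ∫ x in cell n, F x * |mol m w x| ^ pe n := by
    simp only [← integral_indicator measurableSet_cell]
    refine fatou (F0 := (cell n).indicator fun x => F x * |w x| ^ pe n)
      (fun m => (integrable_indicator_iff measurableSet_cell).2
        (int_cell (hF.mul (cont_pe hn (mol_c1 hw m).continuous))))
      (fun m x => indicator_nonneg (fun y _ => mul_nonneg (F0 y) (by positivity)) x) ?_ ?_
    · filter_upwards [mol_ae w1] with x hx
      by_cases k : x ∈ cell n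
      · simp only [indicator_of_mem k]
        exact ((cp.tendsto _).comp hx).const_mul _
      · simp [indicator_of_notMem k]
    · rw [← lintegral_indicator measurableSet_cell] at r2
      refine r2.trans_eq (lintegral_congr fun x => ?_)
      by_cases k : x ∈ cell n <;> simp [k]
  have e2 : Tendsto (fun m => ∫ x in cell n, g x * mol m w x) atTop
      (𝓝 (∫ x in cell n, g x * w x)) := by
    obtain ⟨θ, h1, h2, -, -, h5⟩ := exists_part n
    have := mol_weak (a := fun x => θ x * g x) (h1.continuous.mul hg) h2.mul_right w1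
    simp only [mul_assoc] at this
    rw [part_eq h1.continuous h2 h5 (Φ := fun x => g x * w x)
      (fun x i => by simp only [pg x i, hw.per_w x i]) (w1.continuous_mul hg)] at this
    exact this.congr fun m => part_eq h1.continuous h2 h5 (Φ := fun x => g x * mol m w x)
      (fun x i => by simp only [pg x i, per_mol hw.per_w m x i])
      (hg.mul (mol_c1 hw m).continuous).locallyIntegrable
  have e3 := ((((cp.tendsto _).comp e2).const_mul M).const_add (τ ^ pe n)).eventually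
    (gt_mem_nhds (ENNReal.ofReal_lt_ofReal_iff'.1 r1).1)
  refine le_of_forall_pos_le_add fun δ hδ => ?_
  obtain ⟨m, h1, h2, h3⟩ := (e1.and (e3.and (up ha hq pa pq hw hδ))).exists
  exact (H _ (mol_c1 hw m) (per_mol hw.per_w m) τ hτ (h2.le.trans h1)).trans h3

/-- The conformal factor of the flat model. -/
def ps (φ : E n → ℝ) (x : E n) : ℝ := φ x ^ (((n : ℝ) - 2) / 4)

theorem ps_pos (h0 : ∀ x, 0 < φ x) (x : E n) : 0 < ps φ x := Real.rpow_pos_of_pos (h0 x) _

theorem ps_smooth {k : WithTop ℕ∞} (hφ : ContDiff ℝ k φ) (h0 : ∀ x, 0 < φ x) :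
    ContDiff ℝ k (ps φ) := hφ.rpow_const_of_ne fun x => (h0 x).ne'

theorem ps_per (pφ : Per φ) : Per (ps φ) := fun x i => by simp only [ps, pφ x i]

theorem ps_sq (h0 : ∀ x, 0 < φ x) (x : E n) : φ x ^ ((n : ℝ) / 2) = φ x * ps φ x ^ 2 := by
  rw [ps, ← Real.rpow_natCast, ← Real.rpow_mul (h0 x).le, mul_comm, ← Real.rpow_add_one (h0 x).ne']
  congr 1
  push_cast
  ring

theorem ps_pe (hn : 3 ≤ n) (h0 : ∀ x, 0 < φ x) (x : E n) : ps φ x ^ pe n = φ x * ps φ x ^ 2 := by
  rw [← ps_sq h0, ps, ← Real.rpow_mul (h0 x).le]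
  congr 1
  linarith [pe_mul hn]

theorem intM_eq (h0 : ∀ x, 0 < φ x) (b U : E n → ℝ) :
    intM φ (fun x => b x * U x) = ∫ x in cell n, b x * φ x * ps φ x ^ 2 * U x := by
  simp only [intM, ps_sq h0]
  congr 1
  funext x
  ring

theorem intM_gr (h0 : ∀ x, 0 < φ x) :
    intM φ (gradSq φ G) = ∫ x in cell n, ps φ x ^ 2 * ∑ i, G i x ^ 2 := by
  simp only [intM, ps_sq h0, gradSq]
  congr 1
  funext x
  have := (h0 x).ne'
  field_simp

theorem le_lam (hn : 3 ≤ n) (hφ : Continuous φ) (pφ : Per φ) (h0 : ∀ x, 0 < φ x)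
    (hh : Continuous h) (ph : Per h) (hF : Continuous F) (hg : Continuous g) (pg : Per g)
    (F0 : ∀ x, 0 ≤ F x) (g0 : ∀ x, 0 ≤ g x) (g1 : ∫ x in cell n, g x = 1) (M0 : 0 ≤ M)
    (e : ∀ x, f x * φ x * ps φ x ^ 2 = F x - M * g x)
    (H : Sm (fun x => ps φ x ^ 2) (fun x => h x * φ x * ps φ x ^ 2) F g M Λ) :
    ((Λ : ℝ) : EReal) ≤ lam φ h f := by
  have cψ : Continuous (ps φ) := (ps_smooth (contDiff_zero.2 hφ) h0).continuous
  refine le_sInf ?_
  rintro _ ⟨w, G, hw, h1, rfl⟩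
  rw [EReal.coe_le_coe_iff, energy, intM_gr h0, intM_eq h0]
  rw [intM_eq h0] at h1
  simp only [e] at h1
  change ∫ x in cell n, (F x - M * g x) * |w x| ^ pe n = 1 at h1
  have w1 := (locInt_of_L2 hw.L2_w).1
  have p0 := pe_pos hn
  have h2 : ENNReal.ofReal (1 + M * |∫ x in cell n, g x * w x| ^ pe n) ≤
      ∫⁻ x in cell n, ENNReal.ofReal (F x * |w x| ^ pe n) := by
    have nn : ∀ x, 0 ≤ F x * |w x| ^ pe n := fun x => mul_nonneg (F0 x) (by positivity)
    by_cases hi : IntegrableOn (fun x => F x * |w x| ^ pe n) (cell n)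
    · rw [← ofReal_integral_eq_lintegral_ofReal hi (Eventually.of_forall nn)]
      refine ENNReal.ofReal_le_ofReal ?_
      rcases M0.eq_or_lt with rfl | M0
      · simpa using h1.ge
      have i1 : IntegrableOn (fun x => g x * |w x| ^ pe n) (cell n) :=
        ((hi.sub (integrable_of_integral_eq_one h1)).const_mul M⁻¹).congr
          (Eventually.of_forall fun x => by simp only [Pi.sub_apply]; field_simp; ring)
      have i2 := integrableOn_cell (w1.continuous_mul hg)
      have i3 : IntegrableOn (fun x => g x * |w x|) (cell n) := i2.abs.congr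
        (Eventually.of_forall fun x => by simp only [abs_mul, abs_of_nonneg (g0 x)])
      have j1 := jensen (by linarith [pe_gt hn]) g0 (fun x => abs_nonneg (w x)) g1 i3 i1
      have j2 : |∫ x in cell n, g x * w x| ≤ ∫ x in cell n, g x * |w x| :=
        abs_integral_le_integral_abs.trans_eq (by simp only [abs_mul, abs_of_nonneg (g0 _)])
      have j3 := (Real.rpow_le_rpow (abs_nonneg _) j2 p0.le).trans j1
      simp only [sub_mul, mul_assoc] at h1
      rw [integral_sub hi (i1.const_mul M), integral_const_mul] at h1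
      nlinarith
    · exact le_top.trans (not_not.1 fun k => hi ((lintegral_ofReal_ne_top_iff_integrable
        (hF.aestronglyMeasurable.mul (w1.aestronglyMeasurable.aemeasurable.restrict.abs.pow_const
          _).aestronglyMeasurable) (Eventually.of_forall nn)).1 k)).ge
  have h3 : Tendsto (fun τ : ℝ => Λ * τ ^ 2) (𝓝[<] 1) (𝓝 (Λ * 1 ^ 2)) :=
    ((continuous_const.mul (continuous_id.pow 2)).tendsto 1).mono_left nhdsWithin_le_nhds
  rw [one_pow, mul_one] at h3
  apply le_of_tendsto h3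
  filter_upwards [Ioo_mem_nhdsLT (zero_lt_one' ℝ)] with τ hτ
  refine H.weak hn (cψ.pow 2) ((hh.mul hφ).mul (cψ.pow 2)) hF hg
    (fun x i => by simp only [ps_per pφ x i])
    (fun x i => by simp only [ps_per pφ x i, pφ x i, ph x i]) pg F0 hw hτ.1 (lt_of_lt_of_le ?_ h2)
  rw [ENNReal.ofReal_lt_ofReal_iff (by positivity)]
  linarith [Real.rpow_lt_one hτ.1.le hτ.2 p0]

theorem flat_id (hφ : ContDiff ℝ 2 φ) (pφ : Per φ) (h0 : ∀ x, 0 < φ x) (hh : Continuous h)
    (hw : ContDiff ℝ 1 w) (pw : Per w) : (∫ x in cell n, gsq (fun y => ps φ y * w y) x) +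
      ∫ x in cell n, (h x * φ x + Lap (ps φ) x / ps φ x) * (ps φ x * w x) ^ 2 =
    (∫ x in cell n, ps φ x ^ 2 * gsq w x) + ∫ x in cell n, h x * φ x * ps φ x ^ 2 * w x ^ 2 := by
  have hψ := ps_smooth hφ h0
  have cψ := hψ.continuous
  have cL := continuous_Lap hψ
  have cw := hw.continuous
  rw [cell_ground hψ hw (ps_per pφ) pw, add_assoc, ← integral_add (int_cell (by fun_prop))
    (int_cell (F := fun x => (h x * φ x + Lap (ps φ) x / ps φ x) * (ps φ x * w x) ^ 2)
      (((hh.mul hφ.continuous).add (cL.div cψ fun x => (ps_pos h0 x).ne')).mul ((cψ.mul cw).pow 2)))]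
  congr 2
  funext x
  have := (ps_pos h0 x).ne'
  field_simp
  ring

theorem abs_ps (hn : 3 ≤ n) (h0 : ∀ x, 0 < φ x) (x : E n) (t : ℝ) :
    f x * |ps φ x * t| ^ pe n = f x * φ x * ps φ x ^ 2 * |t| ^ pe n := by
  rw [abs_mul, abs_of_pos (ps_pos h0 x), Real.mul_rpow (ps_pos h0 x).le (abs_nonneg _), ps_pe hn h0]
  ring

theorem FW.sm (hn : 3 ≤ n) (hφ : ContDiff ℝ 2 φ) (pφ : Per φ) (h0 : ∀ x, 0 < φ x)
    (hh : Continuous h) (H : FW (fun x => h x * φ x + Lap (ps φ) x / ps φ x) f Λ) :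
    Sm (fun x => ps φ x ^ 2) (fun x => h x * φ x * ps φ x ^ 2)
      (fun x => f x * φ x * ps φ x ^ 2) g 0 Λ := fun u hu pu τ hτ ht => by
  rw [← flat_id hφ pφ h0 hh hu pu]
  exact H _ (((ps_smooth hφ h0).of_le (by norm_num)).mul hu)
    (fun x i => by simp only [ps_per pφ x i, pu x i]) τ hτ (by simpa only [abs_ps hn h0, zero_mul,
      add_zero] using ht)

theorem fw_of_lam (hn : 3 ≤ n) (hφ : ContDiff ℝ 2 φ) (pφ : Per φ) (h0 : ∀ x, 0 < φ x)
    (hh : Continuous h) (Λ0 : 0 ≤ Λ) (H : ((Λ : ℝ) : EReal) ≤ lam φ h f) :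
    FW (fun x => h x * φ x + Lap (ps φ) x / ps φ x) f Λ := by
  intro u hu pu τ hτ ht
  have p0 := pe_pos hn
  have I0 := (Real.rpow_pos_of_pos hτ _).trans_le ht
  obtain ⟨σ, σ0, hσ⟩ : ∃ σ : ℝ, 0 < σ ∧ σ ^ pe n = ∫ x in cell n, f x * |u x| ^ pe n :=
    ⟨_, Real.rpow_pos_of_pos I0 _, Real.rpow_inv_rpow I0.le p0.ne'⟩
  have hψ := ps_smooth hφ h0
  have hw : ContDiff ℝ 1 fun x => σ⁻¹ * u x / ps φ x :=
    (contDiff_const.mul hu).div (hψ.of_le (by norm_num)) fun x => (ps_pos h0 x).ne'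
  have pw : Per fun x => σ⁻¹ * u x / ps φ x := fun x i => by simp only [ps_per pφ x i, pu x i]
  have e : ∀ x, ps φ x * (σ⁻¹ * u x / ps φ x) = σ⁻¹ * u x := fun x =>
    mul_div_cancel₀ _ (ps_pos h0 x).ne'
  have h1 := H.trans (sInf_le ⟨_, _, h1_of_contDiff hw pw, by
    rw [intM_eq h0]
    change ∫ x in cell n, _ * |_| ^ pe n = 1
    simp only [← abs_ps hn h0, e, abs_mul, abs_of_pos (inv_pos.2 σ0),
      Real.mul_rpow (inv_pos.2 σ0).le (abs_nonneg _), mul_left_comm (f _), integral_const_mul, ← hσ]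
    rw [Real.inv_rpow σ0.le, inv_mul_cancel₀ (Real.rpow_pos_of_pos σ0 _).ne'], rfl⟩)
  rw [EReal.coe_le_coe_iff, energy, intM_gr h0, intM_eq h0] at h1
  have h2 := flat_id hφ pφ h0 hh hw pw
  simp only [e, gsq_const_mul (hu.differentiable one_ne_zero), mul_pow σ⁻¹,
    mul_left_comm _ (σ⁻¹ ^ 2), integral_const_mul, ← mul_add] at h2
  have h3 := h1.trans_eq h2.symm
  rw [inv_pow, le_inv_mul_iff₀ (by positivity)] at h3
  have h4 : τ ≤ σ := (Real.rpow_le_rpow_iff hτ.le σ0.le p0).1 (hσ ▸ ht)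
  exact le_trans (by rw [mul_comm]; gcongr) h3

theorem vol_pos (hφ : Continuous φ) (pφ : Per φ) (h0 : ∀ x, 0 < φ x) :
    0 < ∫ x in cell n, φ x * ps φ x ^ 2 :=
  cell_pos (fun x i => by simp only [ps_per pφ x i, pφ x i])
    (hφ.mul ((ps_smooth (contDiff_zero.2 hφ) h0).continuous.pow 2))
    (fun x => mul_nonneg (h0 x).le (sq_nonneg _)) (x := 0) (mul_pos (h0 0) (pow_pos (ps_pos h0 0) 2)).ne'

theorem coer (hn : 3 ≤ n) (hφ : Continuous φ) (pφ : Per φ) (h0 : ∀ x, 0 < φ x)
    (hh : Continuous h) (ph : Per h) (hf : Continuous f) (pf : Per f) (f0 : ∀ x, 0 < f x)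
    (Λ0 : 0 < Λ) (H : Sm (fun x => ps φ x ^ 2) (fun x => h x * φ x * ps φ x ^ 2)
      (fun x => f x * φ x * ps φ x ^ 2) g 0 Λ) : Coercive φ h := by
  have cψ : Continuous (ps φ) := (ps_smooth (contDiff_zero.2 hφ) h0).continuous
  have pψ := ps_per pφ
  obtain ⟨P, hP⟩ := per_min pf hf
  obtain ⟨Q, hQ⟩ := per_max (w := fun x => |h x|) (fun x i => by simp only [ph x i]) hh.abs
  have V0 := vol_pos hφ pφ h0
  set V := ∫ x in cell n, φ x * ps φ x ^ 2 with hV
  have p0 := pe_pos hn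
  have v0 : ∀ x, 0 ≤ φ x * ps φ x ^ 2 := fun x => mul_nonneg (h0 x).le (sq_nonneg _)
  obtain ⟨t, t0, ht⟩ : ∃ t : ℝ, 0 < t ∧ t ^ pe n = f P * V :=
    ⟨_, Real.rpow_pos_of_pos (mul_pos (f0 P) V0) _, Real.rpow_inv_rpow (mul_pos (f0 P) V0).le p0.ne'⟩
  set c := Λ * t ^ 2 / V with hc
  have c0 : 0 < c := by positivity
  have C0 := abs_nonneg (h Q)
  refine ⟨c / (c + |h Q| + 1), by positivity, fun w G hw => ?_⟩
  have w2 := (locInt_of_L2 hw.L2_w).2
  have iw : ∀ a : E n → ℝ, Continuous a → IntegrableOn (fun x => a x * w x ^ 2) (cell n) :=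
    fun a ha => integrableOn_cell (w2.continuous_mul ha)
  have i1 := iw (fun x => φ x * ps φ x ^ 2) (by fun_prop)
  have i2 := iw (fun x => h x * φ x * ps φ x ^ 2) (by fun_prop)
  have eN := intM_eq h0 (fun _ => 1) fun x => w x ^ 2
  simp only [one_mul] at eN
  rw [energy, eN, intM_gr h0, intM_eq h0]
  have hA : 0 ≤ ∫ x in cell n, ps φ x ^ 2 * ∑ i, G i x ^ 2 := integral_nonneg fun x => by positivity
  have hB : ∀ {w : E n → ℝ}, IntegrableOn (fun x => φ x * ps φ x ^ 2 * w x ^ 2) (cell n) →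
      IntegrableOn (fun x => h x * φ x * ps φ x ^ 2 * w x ^ 2) (cell n) →
      -|h Q| * ∫ x in cell n, φ x * ps φ x ^ 2 * w x ^ 2 ≤
      ∫ x in cell n, h x * φ x * ps φ x ^ 2 * w x ^ 2 := fun {w} i1 i2 => by
    rw [← integral_const_mul]
    refine integral_mono (i1.const_mul _) i2 fun x => ?_
    have := mul_le_mul_of_nonneg_right (abs_le.1 (hQ x)).1 (mul_nonneg (v0 x) (sq_nonneg (w x)))
    simpa only [mul_assoc] using this
  have hE : c * ∫ x in cell n, φ x * ps φ x ^ 2 * w x ^ 2 ≤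
      (∫ x in cell n, ps φ x ^ 2 * ∑ i, G i x ^ 2) +
        ∫ x in cell n, h x * φ x * ps φ x ^ 2 * w x ^ 2 := by
    refine le_of_forall_pos_le_add fun δ hδ => ?_
    obtain ⟨m, hm⟩ := (up (a := fun x => ps φ x ^ 2)
      (q := fun x => h x * φ x * ps φ x ^ 2 - c * (φ x * ps φ x ^ 2)) (by fun_prop) (by fun_prop)
      (fun x i => by simp only [pψ x i]) (fun x i => by simp only [pψ x i, pφ x i, ph x i])
      hw hδ).exists
    have hu := mol_c1 hw m
    have pu := per_mol hw.per_w m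
    generalize mol m w = u at hm hu pu
    have cu := hu.continuous
    simp only [sub_mul, mul_assoc c] at hm
    rw [integral_sub i2 (i1.const_mul c), integral_sub (int_cell (by fun_prop))
      (int_cell (by fun_prop)), integral_const_mul, integral_const_mul] at hm
    have N0 : 0 ≤ ∫ x in cell n, φ x * ps φ x ^ 2 * u x ^ 2 :=
      integral_nonneg fun x => mul_nonneg (v0 x) (sq_nonneg _)
    suffices c * ∫ x in cell n, φ x * ps φ x ^ 2 * u x ^ 2 ≤
      (∫ x in cell n, ps φ x ^ 2 * gsq u x) + ∫ x in cell n, h x * φ x * ps φ x ^ 2 * u x ^ 2 by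
      linarith
    rcases N0.eq_or_lt with e | N0
    · have z := hB (w := u) (int_cell (by fun_prop)) (int_cell (by fun_prop))
      rw [← e, mul_zero] at z ⊢
      exact add_nonneg (integral_nonneg fun x => mul_nonneg (sq_nonneg _) (gsq_nonneg _ _)) z
    have j := jensen (μ := volume.restrict (cell n)) (g := fun x => V⁻¹ * (φ x * ps φ x ^ 2))
      (y := fun x => u x ^ 2) (r := pe n / 2) (by linarith [pe_gt hn])
      (fun x => mul_nonneg (inv_pos.2 V0).le (v0 x)) (fun x => sq_nonneg _)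
      (by rw [integral_const_mul, inv_mul_cancel₀ V0.ne']) (int_cell (by fun_prop))
      (int_cell ((by fun_prop : Continuous _).mul
        ((cu.pow 2).rpow_const fun _ => Or.inr (by linarith))))
    have e2 : ∀ s : ℝ, (s ^ 2) ^ (pe n / 2) = |s| ^ pe n := fun s => by
      rw [← sq_abs, ← Real.rpow_natCast, ← Real.rpow_mul (abs_nonneg s)]
      congr 1
      push_cast
      ring
    simp only [mul_assoc V⁻¹, integral_const_mul, e2] at j
    set N := ∫ x in cell n, φ x * ps φ x ^ 2 * u x ^ 2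
    have s0 : 0 < √(V⁻¹ * N) := by positivity
    rw [← Real.sq_sqrt (show 0 ≤ V⁻¹ * N by positivity), e2, abs_of_pos s0,
      le_inv_mul_iff₀ V0] at j
    refine le_trans (le_of_eq ?_) (H u hu pu (t * √(V⁻¹ * N)) (by positivity) ?_)
    · rw [mul_pow, Real.sq_sqrt (by positivity), hc]
      ring
    · rw [zero_mul, add_zero, Real.mul_rpow t0.le s0.le, ht, mul_assoc]
      refine (mul_le_mul_of_nonneg_left j (f0 P).le).trans ?_
      have cp := cont_pe hn cu
      rw [← integral_const_mul]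
      refine integral_mono (int_cell (by fun_prop)) (int_cell (by fun_prop)) fun x => ?_
      simp only [mul_assoc]
      exact mul_le_mul_of_nonneg_right (hP x) (by have := h0 x; positivity)
  rw [div_mul_eq_mul_div, div_le_iff₀ (by positivity)]
  nlinarith [hB i1 i2]

theorem Lam_eq (h1 : ∀ x, f x ≤ 1) {P : E n} (hP : f P = 1) : Lam f = (Ksq n)⁻¹ := by
  have : ⨆ x, f x = 1 := le_antisymm (ciSup_le h1)
    (hP ▸ le_ciSup ⟨1, by rintro _ ⟨x, rfl⟩; exact h1 x⟩ P)
  simp [Lam, this]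

end Pool.Agent.P.MP_80466e_an.Hd
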