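import Pool.Agent.P.MP_80466e_an.Period
import Pool.Agent.P.MP_80466e_an.Moll
import Pool.Agent.P.MP_80466e_an.Bubble

/-!
Integrals of periodic functions over the unit cell.
-/

set_option autoImplicit false

noncomputable section

namespace Pool.Agent.P.MP_80466e_an.Hd

open MeasureTheory Filter Topology

variable {n : ℕ}

/-- The critical exponent. -/
def pe (n : ℕ) : ℝ := 2 * (n : ℝ) / ((n : ℝ) - 2)

theorem sub_two_pos (hn : 3 ≤ n) : (0 : ℝ) < n - 2 := by
  have : (3 : ℝ) ≤ n := by exact_mod_cast hn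
  linarith

theorem pe_gt (hn : 3 ≤ n) : 2 < pe n := by
  rw [pe, lt_div_iff₀ (sub_two_pos hn)]
  linarith

theorem pe_pos (hn : 3 ≤ n) : 0 < pe n := by linarith [pe_gt hn]

theorem pe_mul (hn : 3 ≤ n) : ((n : ℝ) - 2) / 2 * pe n = n := by
  have := (sub_two_pos hn).ne'
  rw [pe]; field_simp

theorem cont_pe (hn : 3 ≤ n) {u : E n → ℝ} (hu : Continuous u) :
    Continuous fun x => |u x| ^ pe n :=
  hu.abs.rpow_const fun _ => Or.inr (pe_pos hn).le

theorem le_top1 : (1 : WithTop ℕ∞) ≤ (⊤ : ℕ∞) := by exact_mod_cast le_top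

theorem le_top2 : (2 : WithTop ℕ∞) ≤ (⊤ : ℕ∞) := WithTop.coe_le_coe.2 (le_top : (2 : ℕ∞) ≤ ⊤)

theorem abs_le_nm (x : E n) (i : Fin n) : |x i| ≤ ‖x‖ := by simpa using PiLp.norm_apply_le x i

theorem fderiv_eq_sum (u : E n → ℝ) (x h : E n) : fderiv ℝ u x h = ∑ i, h i * D i u x := by
  have e : h = ∑ i, h i • EuclideanSpace.single i (1 : ℝ) := by
    ext j
    simp [Finset.sum_apply, Pi.single_apply]
  conv_lhs => rw [e]
  simp [D]

theorem fderiv_sq_le (u : E n → ℝ) (x h : E n) : fderiv ℝ u x h ^ 2 ≤ ‖h‖ ^ 2 * gsq u x := by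
  rw [fderiv_eq_sum, EuclideanSpace.real_norm_sq_eq]
  exact Finset.sum_mul_sq_le_sq_mul_sq _ _ _

theorem gsq_le_of {u : E n → ℝ} {x : E n} {C : ℝ} (hC : 0 ≤ C)
    (h : ∀ h : E n, fderiv ℝ u x h ^ 2 ≤ C * ‖h‖ ^ 2) : gsq u x ≤ C := by
  have := h (WithLp.toLp 2 fun i => D i u x)
  rw [fderiv_eq_sum, EuclideanSpace.real_norm_sq_eq] at this
  simp only [← sq] at this
  change gsq u x ^ 2 ≤ C * gsq u x at this
  by_contra hc
  nlinarith [not_le.1 hc]

theorem gsq_mul_le {a b : E n → ℝ} {x : E n} (ha : DifferentiableAt ℝ a x)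
    (hb : DifferentiableAt ℝ b x) :
    gsq (fun y => a y * b y) x ≤ 2 * (a x ^ 2 * gsq b x) + 2 * (gsq a x * b x ^ 2) := by
  simp only [gsq, D_mul ha hb, Finset.mul_sum, Finset.sum_mul, ← Finset.sum_add_distrib]
  exact Finset.sum_le_sum fun i _ => by nlinarith [sq_nonneg (a x * D i b x - D i a x * b x)]

theorem D_shift (u : E n → ℝ) (P : E n) (i : Fin n) (x : E n) :
    D i (fun y => u (y + P)) x = D i u (x + P) := by
  simp only [D, fderiv_comp_add_right]

theorem gsq_sub_const (u : E n → ℝ) (s : ℝ) (x : E n) : gsq (fun y => u y - s) x = gsq u x := by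
  simp only [gsq, D, fderiv_sub_const]

theorem per_shift {w : E n → ℝ} (hw : Per w) (P : E n) : Per fun x => w (x + P) := fun x i => by
  simp only [add_right_comm x _ P, hw (x + P) i]

theorem per_gsq {w : E n → ℝ} (hw : Per w) : Per (gsq w) := fun x i => by
  simp only [gsq, hw.D _ x i]

theorem per_Lap {w : E n → ℝ} (hw : Per w) : Per (Lap w) := fun x i => by
  simp only [Lap, (hw.D _).D _ x i]

theorem per_cell {w : E n → ℝ} (hw : Per w) (x : E n) : ∃ y ∈ cell n, w y = w x := by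
  obtain ⟨g, hg, -⟩ := exists_unique_cell x
  exact ⟨_, hg, hw.lat g x⟩

theorem per_max {w : E n → ℝ} (hw : Per w) (hc : Continuous w) : ∃ P, ∀ x, w x ≤ w P := by
  obtain ⟨P, -, hP⟩ := (isCompact_closedBall (0 : E n) (n + 1)).exists_isMaxOn
    ⟨0, Metric.mem_closedBall_self (by positivity)⟩ hc.continuousOn
  refine ⟨P, fun x => ?_⟩
  obtain ⟨y, hy, e⟩ := per_cell hw x
  exact e ▸ hP (cell_subset hy)

theorem per_min {w : E n → ℝ} (hw : Per w) (hc : Continuous w) : ∃ P, ∀ x, w P ≤ w x := by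
  obtain ⟨P, hP⟩ := per_max (w := fun x => -w x) (fun x i => by simp only [hw x i]) hc.neg
  exact ⟨P, fun x => neg_le_neg_iff.1 (hP x)⟩

theorem int_cell {F : E n → ℝ} (hF : Continuous F) : IntegrableOn F (cell n) :=
  integrableOn_cell hF.locallyIntegrable

theorem cell_shift {F : E n → ℝ} (hF : Per F) (P : E n) :
    ∫ x in cell n, F (x + P) = ∫ x in cell n, F x := by
  rw [fund.setIntegral_eq (fund.vadd_of_comm P) (f := F) fun g x => hF.lat g x]
  have h := (measurePreserving_add_left (volume : Measure (E n)) P).setIntegral_image_emb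
    (measurableEmbedding_addLeft P) F (cell n)
  simp only [add_comm _ P]
  exact h.symm

/-- A periodic partition of unity. -/
theorem exists_part (n : ℕ) : ∃ θ : E n → ℝ, ContDiff ℝ (⊤ : ℕ∞) θ ∧ HasCompactSupport θ ∧
    (∀ x, 0 ≤ θ x) ∧ (∀ x ∈ cell n, 0 < θ x) ∧ ∀ x, PerSum θ x = 1 := by
  let b : ContDiffBump (0 : E n) := ⟨n + 1, n + 2, by positivity, by linarith⟩
  have b1 : ∀ x ∈ cell n, b x = 1 := fun x hx => b.one_of_mem_closedBall (cell_subset hx)
  have hp : ∀ x, 0 < PerSum b x := fun x => by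
    obtain ⟨g, hg, -⟩ := exists_unique_cell x
    exact lt_of_lt_of_le (by rw [show g.1 + x = g +ᵥ x from rfl, b1 _ hg]; norm_num)
      (le_perSum b.hasCompactSupport (fun _ => b.nonneg) g x)
  refine ⟨fun x => b x * (PerSum b x)⁻¹, b.contDiff.mul
    ((contDiff_perSum b.hasCompactSupport b.contDiff).inv fun x => (hp x).ne'),
    b.hasCompactSupport.mul_right, fun x => mul_nonneg b.nonneg (inv_pos.2 (hp x)).le,
    fun x hx => mul_pos (by rw [b1 x hx]; norm_num) (inv_pos.2 (hp x)), fun x => ?_⟩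
  simp only [PerSum] at hp ⊢
  have := fun k => (per_perSum b).lat k x
  simp only [PerSum] at this
  simp only [this, tsum_mul_right]
  exact mul_inv_cancel₀ (hp x).ne'

theorem part_eq {θ Φ : E n → ℝ} (hθ : Continuous θ) (hc : HasCompactSupport θ)
    (h1 : ∀ x, PerSum θ x = 1) (hΦ : Per Φ) (hi : LocallyIntegrable Φ) :
    ∫ x, θ x * Φ x = ∫ x in cell n, Φ x := by
  rw [unfold_integral hc hΦ (hi.integrable_smul_left_of_hasCompactSupport hθ hc)]
  simp only [h1, one_mul]

theorem cell_pos {Φ : E n → ℝ} (hΦ : Per Φ) (hc : Continuous Φ) (h0 : ∀ x, 0 ≤ Φ x) {x : E n}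
    (hx : Φ x ≠ 0) : 0 < ∫ x in cell n, Φ x := by
  obtain ⟨θ, h1, h2, h3, h4, h5⟩ := exists_part n
  obtain ⟨y, hy, e⟩ := per_cell hΦ x
  rw [← part_eq h1.continuous h2 h5 hΦ hc.locallyIntegrable]
  exact (h1.continuous.mul hc).integral_pos_of_hasCompactSupport_nonneg_nonzero h2.mul_right
    (fun x => mul_nonneg (h3 x) (h0 x)) (x := y) (mul_ne_zero (h4 y hy).ne' (e ▸ hx))

theorem cell_D {X : E n → ℝ} (hX : ContDiff ℝ 1 X) (hp : Per X) (i : Fin n) :
    ∫ x in cell n, D i X x = 0 := by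
  obtain ⟨θ, h1, h2, -, -, h5⟩ := exists_part n
  have t1 : ContDiff ℝ 1 θ := h1.of_le le_top1
  have dθ := t1.differentiable one_ne_zero
  have z : ∀ x, PerSum (D i θ) x = 0 := by
    intro x
    obtain ⟨S, hS⟩ := perSum_local h2.isCompact (‖x‖ + 1)
    have e : (fun y => ∑ k ∈ S, θ (k.1 + y)) =ᶠ[𝓝 x] fun _ => 1 := by
      filter_upwards [Metric.ball_mem_nhds x one_pos] with y hy
      rw [← h5 y]
      refine (tsum_eq_sum fun k hk => image_eq_zero_of_notMem_tsupport (hS k hk y ?_)).symm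
      have := norm_le_norm_add_norm_sub' y x
      rw [mem_ball_iff_norm] at hy
      linarith
    have e2 := D_congr e i
    rw [PerSum, tsum_eq_sum (s := S) fun k hk => D_zero_of_notMem (hS k hk x (by linarith)) i]
    simp only [D] at e2 ⊢
    have dk : ∀ k ∈ S, DifferentiableAt ℝ (fun y => θ (k.1 + y)) x := fun k _ =>
      (dθ _).comp x ((differentiableAt_const _).add differentiableAt_id)
    rw [fderiv_fun_sum dk] at e2
    simpa [fderiv_comp_add_left] using e2
  have h := integral_D_eq_zero (t1.mul hX) h2.mul_right i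
  have cD := continuous_D hX i
  have i2 : Integrable fun x => D i θ x * X x :=
    ((continuous_D t1 i).mul hX.continuous).integrable_of_hasCompactSupport
      (hasCompactSupport_D h2 i).mul_right
  have i1 : Integrable fun x => θ x * D i X x :=
    (t1.continuous.mul cD).integrable_of_hasCompactSupport h2.mul_right
  simp only [fun x => D_mul (dθ x) (hX.differentiable one_ne_zero x) i] at h
  rw [integral_add i1 i2,
    part_eq t1.continuous h2 h5 (hp.D i) cD.locallyIntegrable,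
    unfold_integral (hasCompactSupport_D h2 i) hp i2] at h
  simpa [z] using h

/-- The ground state identity on the torus. -/
theorem cell_ground {θ w : E n → ℝ} (hθ : ContDiff ℝ 2 θ) (hw : ContDiff ℝ 1 w) (pθ : Per θ)
    (pw : Per w) : ∫ x in cell n, gsq (fun y => θ y * w y) x =
      (∫ x in cell n, θ x ^ 2 * gsq w x) + ∫ x in cell n, -(θ x * Lap θ x) * w x ^ 2 := by
  have hθ1 : ContDiff ℝ 1 θ := hθ.of_le (by norm_num)
  have hDθ : ∀ i, ContDiff ℝ 1 (D i θ) := fun i => contDiff_D hθ (by norm_num) i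
  have dθ := hθ1.differentiable one_ne_zero
  have dw := hw.differentiable one_ne_zero
  have dD : ∀ i, Differentiable ℝ (D i θ) := fun i => (hDθ i).differentiable one_ne_zero
  let X : Fin n → E n → ℝ := fun i y => θ y * D i θ y * (w y * w y)
  have hX : ∀ i, ContDiff ℝ 1 (X i) := fun i => (hθ1.mul (hDθ i)).mul (hw.mul hw)
  have pX : ∀ i, Per (X i) := fun i x j => by simp only [X, pθ x j, pw x j, pθ.D i x j]
  have pt : ∀ x, gsq (fun y => θ y * w y) x =
      θ x ^ 2 * gsq w x + -(θ x * Lap θ x) * w x ^ 2 + ∑ i, D i (X i) x := by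
    intro x
    simp only [gsq, Lap, Finset.mul_sum, Finset.sum_mul, ← Finset.sum_neg_distrib,
      ← Finset.sum_add_distrib]
    refine Finset.sum_congr rfl fun i _ => ?_
    simp only [X]
    rw [D_mul (dθ x) (dw x), D_mul ((dθ x).fun_mul (dD i x)) ((dw x).fun_mul (dw x)),
      D_mul (dw x) (dw x), D_mul (dθ x) (dD i x)]
    ring
  have i1 : IntegrableOn (fun x => θ x ^ 2 * gsq w x) (cell n) :=
    int_cell ((hθ.continuous.pow 2).mul (continuous_gsq hw))
  have i2 : IntegrableOn (fun x => -(θ x * Lap θ x) * w x ^ 2) (cell n) :=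
    int_cell ((hθ.continuous.mul (continuous_Lap hθ)).neg.mul (hw.continuous.pow 2))
  have i3 : ∀ i, IntegrableOn (D i (X i)) (cell n) := fun i => int_cell (continuous_D (hX i) i)
  have i12 : IntegrableOn (fun x => θ x ^ 2 * gsq w x + -(θ x * Lap θ x) * w x ^ 2) (cell n) :=
    i1.add i2
  simp_rw [pt]
  rw [integral_add i12 (integrable_finsetSum _ fun i _ => i3 i), integral_add i1 i2,
    integral_finsetSum _ fun i _ => i3 i]
  simp [cell_D (hX _) (pX _)]

/-- Covering a bounded set by lattice translates. -/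
theorem cover {ι : Type} [Fintype ι] {K : Set (E n)} {S : ι → Set (E n)} {R : ℝ}
    (mK : MeasurableSet K) (mS : ∀ i, MeasurableSet (S i)) (bK : K ⊆ Metric.closedBall 0 R)
    (bS : ∀ i, S i ⊆ Metric.closedBall 0 R) (h : ∀ x ∈ K, ∃ (k : Lat n) (i : ι), k.1 + x ∈ S i) :
    ∃ N : ℝ, 0 ≤ N ∧ ∀ Φ : E n → ℝ, Continuous Φ → Per Φ → (∀ x, 0 ≤ Φ x) →
      ∫ x in K, Φ x ≤ N * ∑ i, ∫ x in S i, Φ x := by
  let T := (lat_finite (n := n) (R + R)).toFinset
  refine ⟨T.card, Nat.cast_nonneg _, fun Φ hc hp h0 => ?_⟩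
  have io : ∀ {A : Set (E n)}, MeasurableSet A → A ⊆ Metric.closedBall 0 R →
      Integrable (A.indicator Φ) := fun mA bA => (integrable_indicator_iff mA).2
    ((hc.continuousOn.integrableOn_compact (isCompact_closedBall 0 R)).mono_set bA)
  have i2 : ∀ (k : Lat n) i, Integrable fun x => (S i).indicator Φ (k.1 + x) := fun k i =>
    (io (mS i) (bS i)).comp_add_left k.1
  have e : (T.card : ℝ) * ∑ i, ∫ x in S i, Φ x =
      ∫ x, ∑ k ∈ T, ∑ i, (S i).indicator Φ (k.1 + x) := by
    rw [integral_finsetSum _ fun k _ => integrable_finsetSum _ fun i _ => i2 k i]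
    have e1 : ∀ (k : Lat n) i, ∫ x, (S i).indicator Φ (k.1 + x) = ∫ x in S i, Φ x := fun k i => by
      rw [integral_add_left_eq_self ((S i).indicator Φ) k.1, integral_indicator (mS i)]
    simp only [fun k => integral_finsetSum Finset.univ fun i _ => i2 k i, e1, Finset.sum_const,
      nsmul_eq_mul]
  rw [e, ← integral_indicator mK]
  refine integral_mono (io mK bK)
    (integrable_finsetSum _ fun k _ => integrable_finsetSum _ fun i _ => i2 k i) fun x => ?_
  have nn : ∀ (k : Lat n) i, 0 ≤ (S i).indicator Φ (k.1 + x) := fun k i =>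
    Set.indicator_nonneg (fun y _ => h0 y) _
  by_cases hx : x ∈ K
  · obtain ⟨k, i, hk⟩ := h x hx
    have hT : k ∈ T := by
      have h1 := mem_closedBall_zero_iff.1 (bK hx)
      have h2 := mem_closedBall_zero_iff.1 (bS i hk)
      have h3 := norm_sub_le (k.1 + x) x
      rw [add_sub_cancel_right] at h3
      simp only [T, Set.Finite.mem_toFinset, Set.mem_ofPred_eq]
      linarith
    refine le_trans ?_ (Finset.single_le_sum (f := fun k : Lat n => ∑ i, (S i).indicator Φ (k.1 + x))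
      (fun k _ => Finset.sum_nonneg fun i _ => nn k i) hT)
    refine le_trans ?_ (Finset.single_le_sum (fun i _ => nn k i) (Finset.mem_univ i))
    rw [Set.indicator_of_mem hx, Set.indicator_of_mem hk, hp.lat]
  · rw [Set.indicator_of_notMem hx]
    exact Finset.sum_nonneg fun k _ => Finset.sum_nonneg fun i _ => nn k i

/-- Jensen's inequality for powers. -/
theorem jensen {μ : Measure (E n)} {g y : E n → ℝ} {r : ℝ} (hr : 1 ≤ r) (g0 : ∀ x, 0 ≤ g x)
    (y0 : ∀ x, 0 ≤ y x) (g1 : ∫ x, g x ∂μ = 1) (i1 : Integrable (fun x => g x * y x) μ)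
    (i2 : Integrable (fun x => g x * y x ^ r) μ) :
    (∫ x, g x * y x ∂μ) ^ r ≤ ∫ x, g x * y x ^ r ∂μ := by
  have i0 := integrable_of_integral_eq_one g1
  have h0 : 0 ≤ ∫ x, g x * y x ∂μ := integral_nonneg fun x => mul_nonneg (g0 x) (y0 x)
  rcases h0.eq_or_lt with e | h0
  · rw [← e, Real.zero_rpow (by linarith)]
    exact integral_nonneg fun x => mul_nonneg (g0 x) (Real.rpow_nonneg (y0 x) r)
  set a := ∫ x, g x * y x ∂μ with ha
  have e : a ^ r = ∫ x, (a ^ r * (1 - r) * g x + a ^ r * r / a * (g x * y x)) ∂μ := by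
    rw [integral_add (i0.const_mul _) (i1.const_mul _), integral_const_mul, integral_const_mul,
      g1, ← ha]
    field_simp
    ring
  rw [e]
  refine integral_mono ((i0.const_mul _).add (i1.const_mul _)) i2 fun x => ?_
  have h1 := one_add_mul_self_le_rpow_one_add (s := y x / a - 1)
    (by linarith [div_nonneg (y0 x) h0.le]) hr
  rw [add_sub_cancel, Real.div_rpow (y0 x) h0.le, le_div_iff₀ (Real.rpow_pos_of_pos h0 r)] at h1
  have h2 := mul_le_mul_of_nonneg_left h1 (g0 x)
  calc _ = g x * ((1 + r * (y x / a - 1)) * a ^ r) := by field_simp; ring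
    _ ≤ _ := h2

end Pool.Agent.P.MP_80466e_an.Hd
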