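import Pool.Agent.P.MP_80466e_an.Hd.Poin

/-!
A radial stretching improves the Sobolev inequality away from the origin.
-/

set_option autoImplicit false

noncomputable section

namespace Pool.Agent.P.MP_80466e_an.Hd

section

open MeasureTheory Filter Topology Set

variable {n : ℕ}

/-- The Sobolev inequality with constant `Λ` in Euclidean space. -/
def Sob (n : ℕ) (Λ : ℝ) : Prop :=
  ∀ v : E n → ℝ, ContDiff ℝ 1 v → HasCompactSupport v → ∀ τ : ℝ, 0 < τ →
    τ ^ pe n ≤ ∫ x, |v x| ^ pe n → Λ * τ ^ 2 ≤ ∫ x, gsq v x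

/-- The weight. -/
def wt (A : ℝ) (k : ℕ) (x : E n) : ℝ := ((1 + A * (‖x‖ ^ 2) ^ k) ^ n)⁻¹

theorem wt_pos {A : ℝ} (hA : 0 ≤ A) (k : ℕ) (x : E n) : 0 < wt A k x := by
  unfold wt; positivity

theorem wt_le {A : ℝ} (hA : 0 ≤ A) (k : ℕ) (x : E n) : wt A k x ≤ 1 :=
  inv_le_one_of_one_le₀ (one_le_pow₀ (le_add_of_nonneg_right (by positivity)))

theorem wt_smooth {A : ℝ} (hA : 0 ≤ A) (k : ℕ) : ContDiff ℝ (⊤ : ℕ∞) (wt (n := n) A k) :=
  ((contDiff_const.add (contDiff_const.mul ((contDiff_norm_sq ℝ).pow k))).pow n).inv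
    fun x => by positivity

/-- The stretching map. -/
def st (b : ℝ) (j : ℕ) (y : E n) : E n := (1 + b * (‖y‖ ^ 2) ^ (j + 1)) • y

/-- Its derivative. -/
def st' (b : ℝ) (j : ℕ) (y : E n) : E n →L[ℝ] E n :=
  (1 + b * (‖y‖ ^ 2) ^ (j + 1)) • ContinuousLinearMap.id ℝ (E n) +
    ((2 * b * (j + 1) * (‖y‖ ^ 2) ^ j) • innerSL ℝ y).smulRight y

variable {b : ℝ} {j : ℕ}

theorem st_deriv (y : E n) : HasFDerivAt (st b j) (st' b j y) y := by
  have h := ((((hasStrictFDerivAt_norm_sq y).hasFDerivAt.pow (j + 1)).const_mul b).const_add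
    1).smul (hasFDerivAt_id y)
  refine h.congr_fderiv ?_
  ext1 h
  simp [st', smul_smul]
  congr 1
  ring

theorem st_norm (hb : 0 ≤ b) (y : E n) : ‖st b j y‖ = (1 + b * (‖y‖ ^ 2) ^ (j + 1)) * ‖y‖ := by
  rw [st, norm_smul, Real.norm_of_nonneg (by positivity)]

theorem le_st (hb : 0 ≤ b) (y : E n) : ‖y‖ ≤ ‖st b j y‖ := by
  rw [st_norm hb]
  exact le_mul_of_one_le_left (norm_nonneg _) (le_add_of_nonneg_right (by positivity))

theorem st_inj (hb : 0 ≤ b) : Function.Injective (st (n := n) b j) := by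
  have key : ∀ y z : E n, ‖y‖ < ‖z‖ → ‖st b j y‖ < ‖st b j z‖ := fun y z h => by
    rw [st_norm hb, st_norm hb]
    exact mul_lt_mul' (by gcongr) h (norm_nonneg _) (by positivity)
  intro y z h
  have e : ‖y‖ = ‖z‖ := le_antisymm (not_lt.1 fun k => (key _ _ k).ne' (by rw [h]))
    (not_lt.1 fun k => (key _ _ k).ne (by rw [h]))
  rw [st, st, e] at h
  exact smul_right_injective _ (by positivity) h

theorem st_surj (hb : 0 ≤ b) : Function.Surjective (st (n := n) b j) := by
  intro x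
  obtain ⟨t, ht, e⟩ := intermediate_value_Icc (f := fun t : ℝ =>
    (1 + b * ((t * ‖x‖) ^ 2) ^ (j + 1)) * t) zero_le_one (by fun_prop)
    (show (1 : ℝ) ∈ Icc _ _ from ⟨by simp, by simp; positivity⟩)
  refine ⟨t • x, ?_⟩
  rw [st, norm_smul, Real.norm_of_nonneg ht.1, smul_smul]
  simp only at e
  rw [e, one_smul]

theorem st'_det (hb : 0 ≤ b) (y : E n) : (st' b j y).det * (1 + b * (‖y‖ ^ 2) ^ (j + 1)) =
    (1 + b * (‖y‖ ^ 2) ^ (j + 1)) ^ n * (1 + (2 * j + 3) * (b * (‖y‖ ^ 2) ^ (j + 1))) := by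
  have h0 : 1 + b * (‖y‖ ^ 2) ^ (j + 1) ≠ 0 := by positivity
  have e : (st' b j y : E n →ₗ[ℝ] E n) = (1 + b * (‖y‖ ^ 2) ^ (j + 1)) •
      LinearMap.transvection ((2 * b * (j + 1) * (‖y‖ ^ 2) ^ j / (1 + b * (‖y‖ ^ 2) ^ (j + 1))) •
        (innerSL ℝ y : E n →ₗ[ℝ] ℝ)) y := by
    ext1 h
    simp [st', LinearMap.transvection, smul_smul]
    congr 1
    field_simp
  rw [ContinuousLinearMap.det, e, LinearMap.det_smul, LinearMap.transvection.det]
  simp
  field_simp
  ring

theorem st'_norm (hb : 0 ≤ b) (y h : E n) :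
    ‖st' b j y h‖ ≤ (1 + (2 * j + 3) * (b * (‖y‖ ^ 2) ^ (j + 1))) * ‖h‖ := by
  simp only [st', add_apply, smul_apply,
    ContinuousLinearMap.id_apply, ContinuousLinearMap.smulRight_apply, innerSL_apply_apply,
    smul_eq_mul]
  refine (norm_add_le _ _).trans ?_
  rw [norm_smul, norm_smul, norm_mul, Real.norm_of_nonneg (by positivity),
    Real.norm_of_nonneg (by positivity)]
  have h1 := mul_le_mul_of_nonneg_right (mul_le_mul_of_nonneg_left (norm_inner_le_norm (𝕜 := ℝ) y h)
    (show 0 ≤ 2 * b * (j + 1) * (‖y‖ ^ 2) ^ j by positivity)) (norm_nonneg y)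
  refine (add_le_add_right h1 _).trans_eq ?_
  ring

theorem stretch (hn : 2 * j + 4 ≤ n) {ε δ : ℝ} (hε : 0 < ε) (hδ : 0 < δ) : ∃ A : ℝ, 0 ≤ A ∧
    ∀ Λ : ℝ, Sob n Λ → ∀ v : E n → ℝ, ContDiff ℝ 1 v → HasCompactSupport v → ∀ τ : ℝ, 0 < τ →
      τ ^ pe n ≤ ∫ x, wt A (j + 1) x * |v x| ^ pe n →
      Λ * τ ^ 2 ≤ (∫ x in Metric.ball 0 ε, gsq v x) + δ * ∫ x in (Metric.ball 0 ε)ᶜ, gsq v x := by
  obtain ⟨m, rfl⟩ : ∃ m, n = m + 1 := ⟨n - 1, by omega⟩
  set T : ℝ := (2 * j + 3) / δ with hT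
  have T0 : 0 < T := by positivity
  set b : ℝ := T * (((1 + T) / ε) ^ 2) ^ (j + 1) with hb'
  have hb : 0 ≤ b := by positivity
  refine ⟨(2 * j + 3) * b, by positivity, fun Λ hS v hv hc τ hτ h1 => ?_⟩
  let σ : E (m + 1) → ℝ := fun y => b * (‖y‖ ^ 2) ^ (j + 1)
  have σ0 : ∀ y, 0 ≤ σ y := fun y => by positivity
  have hJ : ∀ y, |(st' b j y).det| = (1 + σ y) ^ m * (1 + (2 * j + 3) * σ y) := fun y => by
    have := σ0 y
    rw [← abs_of_nonneg (show 0 ≤ (1 + σ y) ^ m * (1 + (2 * j + 3) * σ y) by positivity)]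
    congr 1
    refine mul_right_cancel₀ (show 1 + σ y ≠ 0 by positivity) ((st'_det hb y).trans ?_)
    ring
  have cv : ∀ F : E (m + 1) → ℝ, ∫ x, F x = ∫ y, |(st' b j y).det| * F (st b j y) := fun F => by
    simpa [(st_surj hb).range_eq] using integral_image_eq_integral_abs_det_fderiv_smul volume
      MeasurableSet.univ (fun y _ => (st_deriv y).hasFDerivWithinAt) (st_inj hb).injOn F
  have ci : ∀ F : E (m + 1) → ℝ, Integrable F →
      Integrable fun y => |(st' b j y).det| * F (st b j y) := fun F hF => by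
    simpa using (integrableOn_image_iff_integrableOn_abs_det_fderiv_smul volume
      MeasurableSet.univ (fun y _ => (st_deriv y).hasFDerivWithinAt) (st_inj hb).injOn F).1
        hF.integrableOn
  have hw : ContDiff ℝ 1 fun y => v (st b j y) := hv.comp
    ((contDiff_const.add (contDiff_const.mul ((contDiff_norm_sq ℝ).pow _))).smul contDiff_id)
  obtain ⟨R, hR⟩ := hc.isCompact.isBounded.subset_closedBall 0
  have wz : ∀ y, y ∉ Metric.closedBall (0 : E (m + 1)) R → v (st b j y) = 0 := fun y hy =>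
    image_eq_zero_of_notMem_tsupport fun h => hy (mem_closedBall_zero_iff.2
      ((le_st hb y).trans (mem_closedBall_zero_iff.1 (hR h))))
  have n3 : 3 ≤ m + 1 := by omega
  have h2 := hS _ hw (HasCompactSupport.intro (isCompact_closedBall 0 R) wz) τ hτ (h1.trans (by
    rw [cv]
    refine integral_mono_of_nonneg (Eventually.of_forall fun y => mul_nonneg (abs_nonneg _)
      (mul_nonneg (wt_pos (by positivity) _ _).le (by positivity)))
      ((cont_pe n3 hw.continuous).integrable_of_hasCompactSupport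
        (HasCompactSupport.intro (isCompact_closedBall 0 R) fun y hy => by
          simp [wz y hy, (pe_pos n3).ne'])) (Eventually.of_forall fun y => ?_)
    simp only
    rw [← mul_assoc]
    refine mul_le_of_le_one_left (by positivity) ?_
    have := σ0 y
    have a1 : σ y ≤ b * (‖st b j y‖ ^ 2) ^ (j + 1) := by
      simp only [σ]
      gcongr
      exact le_st hb y
    rw [hJ, wt, mul_inv_le_iff₀ (by positivity), one_mul, pow_succ _ m, mul_assoc _ b]
    have a2 : (0 : ℝ) ≤ j := Nat.cast_nonneg j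
    gcongr
    nlinarith))
  refine h2.trans ?_
  have ig : Integrable (gsq v) :=
    (continuous_gsq hv).integrable_of_hasCompactSupport (hasCompactSupport_gsq hc)
  have i1 := ig.indicator (measurableSet_ball (x := 0) (ε := ε))
  have i2 := (ig.indicator (measurableSet_ball (x := 0) (ε := ε)).compl).const_mul δ
  rw [← integral_indicator measurableSet_ball, ← integral_indicator measurableSet_ball.compl,
    ← integral_const_mul, ← integral_add i1 i2, cv fun x => _ + _]
  refine integral_mono_of_nonneg (Eventually.of_forall fun y => gsq_nonneg _ _) (ci _ (i1.add i2))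
    (Eventually.of_forall fun y => ?_)
  have s0 := σ0 y
  have g0 := gsq_nonneg v (st b j y)
  have a1 : gsq (fun y => v (st b j y)) y ≤ (1 + (2 * j + 3) * σ y) ^ 2 * gsq v (st b j y) := by
    refine gsq_le_of (by positivity) fun h => ?_
    have := ((hv.differentiable one_ne_zero _).hasFDerivAt.comp y (st_deriv (b := b) (j := j) y)).fderiv
    rw [show (fun y => v (st b j y)) = v ∘ st b j from rfl, this, ContinuousLinearMap.comp_apply]
    refine (fderiv_sq_le _ _ _).trans ?_
    rw [mul_right_comm, ← mul_pow]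
    gcongr
    exact st'_norm hb y h
  refine a1.trans ?_
  simp only [hJ]
  by_cases hy : st b j y ∈ Metric.ball 0 ε
  · rw [indicator_of_mem hy, indicator_of_notMem (not_not.2 hy), mul_zero, add_zero, sq]
    gcongr
    have := one_add_mul_le_pow (a := σ y) (by linarith) (2 * j + 3)
    push_cast at this
    exact this.trans (pow_le_pow_right₀ (by linarith) (by omega))
  · rw [indicator_of_notMem hy, indicator_of_mem (mem_compl hy), zero_add, ← mul_assoc _ δ, sq,
      mul_right_comm _ _ δ]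
    gcongr
    have a2 : T ≤ σ y := by
      by_contra hc
      have a3 : ε ≤ (1 + T) * ‖y‖ := by
        refine (not_lt.1 fun k => hy (mem_ball_zero_iff.2 k)).trans ?_
        rw [st_norm hb]
        gcongr
        exact (not_le.1 hc).le
      have a4 : 1 ≤ (1 + T) / ε * ‖y‖ := by rwa [div_mul_eq_mul_div, le_div_iff₀ hε, one_mul]
      apply hc
      simp only [σ, hb']
      rw [mul_assoc, ← mul_pow, ← mul_pow]
      exact le_mul_of_one_le_right T0.le (one_le_pow₀ (one_le_pow₀ a4))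
    have a5 : (1 + σ y) ^ 2 ≤ (1 + σ y) ^ m := pow_le_pow_right₀ (by linarith) (by omega)
    rw [hT, div_le_iff₀ hδ] at a2
    have a6 : (0 : ℝ) ≤ j := Nat.cast_nonneg j
    nlinarith [mul_le_mul_of_nonneg_right a5 hδ.le, mul_le_mul_of_nonneg_right a2 s0]

end

section

open MeasureTheory Filter Topology Set

variable {n : ℕ}

theorem exists_eta (n : ℕ) : ∃ η : E n → ℝ, ContDiff ℝ 1 η ∧ HasCompactSupport η ∧
    (∀ x, η x ^ 2 ≤ 1) ∧ (∀ x ∈ cell n, η x = 1) ∧ (∀ x ∈ Oc n, η =ᶠ[𝓝 x] fun _ => 1) ∧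
    ∀ x, x ∉ Qb n → η x = 0 ∧ gsq η x = 0 := by
  let β : ContDiffBump (0 : ℝ) := ⟨1 / 2, 3 / 4, by norm_num, by norm_num⟩
  let η : E n → ℝ := fun x => ∏ i, β (x i)
  have η1 : ∀ x : E n, (∀ i, |x i| ≤ 1 / 2) → η x = 1 := fun x hx =>
    Finset.prod_eq_one fun i _ => β.one_of_mem_closedBall (mem_closedBall_zero_iff.2 (hx i))
  have ηs : ∀ y, y ∉ Qb n → η y = 0 := fun y hy => by
    by_contra h
    refine hy fun i => abs_le.1 (not_lt.1 fun k => h (Finset.prod_eq_zero (Finset.mem_univ i)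
      (β.zero_of_le_dist (by simpa using k.le))))
  refine ⟨η, contDiff_prod fun i _ => β.contDiff.comp (EuclideanSpace.proj (𝕜 := ℝ) i).contDiff,
    HasCompactSupport.intro (isCompact_closedBall 0 (n + 1)) fun y hy => ηs y fun h => hy (Qb_sub h),
    fun x => pow_le_one₀ (Finset.prod_nonneg fun i _ => β.nonneg)
      (Finset.prod_le_one (fun i _ => β.nonneg) fun i _ => β.le_one),
    fun x hx => η1 x fun i => abs_le.2 ⟨(hx i).1, (hx i).2.le⟩, fun x hx => ?_,
    fun x hx => ⟨ηs x hx, gsq_zero_of_notMem fun h => hx ?_⟩⟩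
  · filter_upwards [Oc_open.mem_nhds hx] with y hy using η1 y fun i => (hy i).le
  · exact closure_minimal (fun y (hy : η y ≠ 0) => not_not.1 fun k => hy (ηs y k)) (box_closed _ _) h

theorem core {j : ℕ} (hn : 2 * j + 4 ≤ n) {x0 : E n} {ε : ℝ} (hε : 0 < ε)
    (hx0 : ∀ i, 2 * ε < x0 i ∧ x0 i < 1 - 2 * ε) {g : E n → ℝ} (hg : Continuous g)
    (g0 : ∀ x, 0 ≤ g x) (gS : ∀ x, x ∉ Metric.ball x0 ε → g x = 0) (g1 : ∫ x, g x = 1) {θ : ℝ}
    (hθ : 0 < θ) : ∃ A : ℝ, 0 ≤ A ∧ ∀ Λ : ℝ, Sob n Λ → ∀ u : E n → ℝ, ContDiff ℝ 1 u → Per u →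
      ∀ s τ : ℝ, 0 < τ → τ ^ pe n ≤ ∫ x in cell n, wt A (j + 1) x * |u x - s| ^ pe n →
        Λ * τ ^ 2 ≤ (∫ x in cell n, gsq u x) + θ * ((∫ y, g y * u y) - s) ^ 2 := by
  have n3 : 3 ≤ n := by omega
  have ε4 : ε < 1 / 4 := by linarith [hx0 ⟨0, by omega⟩]
  obtain ⟨η, hη, ηc, η2, η1, ηO, ηQ⟩ := exists_eta n
  obtain ⟨B, hB⟩ := (continuous_gsq hη).bounded_above_of_compact_support (hasCompactSupport_gsq ηc)
  have B0 : 0 ≤ B := (norm_nonneg _).trans (hB 0)
  have mQ : MeasurableSet (Qb n) := (box_closed _ _).measurableSet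
  have mb : MeasurableSet (Metric.ball (0 : E n) ε) := measurableSet_ball
  have m1 := mQ.diff mb
  have m2 := mQ.diff (Oc_open (n := n)).measurableSet
  obtain ⟨N, N0, hN⟩ := out_cov (ε := ε) m1 (sdiff_subset.trans Qb_sub) fun x hx k => by
    rcases eq_or_ne k 0 with rfl | hk
    · simpa using hx.2
    · obtain ⟨i, hi⟩ := lat_ne_zero hk
      have h1 := abs_le.2 (hx.1 i)
      have h2 := abs_le_nm (k.1 + x) i
      have h3 : |k.1 i| ≤ |(k.1 + x) i| + |x i| := by simpa using abs_sub (k.1 i + x i) (x i)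
      linarith
  obtain ⟨C, C0, hC⟩ := out_poin hε hx0 hg g0 gS g1
  have W0 : 0 ≤ volume.real (Qb n \ Oc n) := measureReal_nonneg
  set W := volume.real (Qb n \ Oc n) with hW
  set δ := min (2 * N + 4 * B * C + 1)⁻¹ (θ / (4 * B * W + 1)) with hδ
  have δ0 : 0 < δ := lt_min (by positivity) (by positivity)
  have δ1 : δ * (2 * N + 4 * B * C + 1) ≤ 1 :=
    (le_div_iff₀ (by positivity)).1 ((min_le_left _ _).trans_eq (one_div _).symm)
  have δ2 : δ * (4 * B * W + 1) ≤ θ := (le_div_iff₀ (by positivity)).1 (min_le_right _ _)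
  obtain ⟨A, A0, hA⟩ := stretch hn hε δ0
  refine ⟨A, A0, fun Λ hS u hu pu s τ hτ h => ?_⟩
  have hv : ContDiff ℝ 1 fun x => η x * (u x - s) := hη.mul (hu.sub contDiff_const)
  have io : ∀ {F : E n → ℝ} {K : Set (E n)}, Continuous F → K ⊆ Qb n → IntegrableOn F K :=
    fun hF hK => (hF.continuousOn.integrableOn_compact (isCompact_closedBall 0 (n + 1))).mono_set
      (hK.trans Qb_sub)
  have h1 := hA Λ hS _ hv ηc.mul_right τ hτ (h.trans (by
    refine le_trans (le_of_eq (setIntegral_congr_fun measurableSet_cell fun x hx => ?_))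
      (setIntegral_le_integral (((wt_smooth A0 _).continuous.mul
        (cont_pe n3 hv.continuous)).integrable_of_hasCompactSupport
          (HasCompactSupport.intro ηc fun x hx => ?_)) (Eventually.of_forall fun x =>
            mul_nonneg (wt_pos A0 _ x).le (by positivity)))
    · simp only [η1 x hx, one_mul]
    · simp [image_eq_zero_of_notMem_tsupport hx, (pe_pos n3).ne']))
  set m := ∫ y, g y * u y
  have cu := continuous_gsq hu
  have bc : Metric.ball (0 : E n) ε ⊆ cell n :=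
    (Metric.ball_subset_ball (by linarith)).trans ball_subset_cell
  have e1 : ∫ x in Metric.ball 0 ε, gsq (fun x => η x * (u x - s)) x =
      ∫ x in Metric.ball 0 ε, gsq u x := setIntegral_congr_fun mb fun x hx => by
    rw [← gsq_sub_const u s]
    refine gsq_congr ?_
    filter_upwards [ηO x fun i => by linarith [abs_le_nm x i, mem_ball_zero_iff.1 hx]] with y hy
    rw [hy, one_mul]
  have i1 := (integrable_indicator_iff m1).2 (io cu sdiff_subset)
  have i2 := (integrable_indicator_iff m2).2 (io (F := fun x => (u x - m) ^ 2)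
    ((hu.continuous.sub continuous_const).pow 2) sdiff_subset)
  have i3 := (integrable_indicator_iff m2).2 (io (continuous_const (y := (m - s) ^ 2)) sdiff_subset)
  have i4 : Integrable fun x => (Qb n \ Oc n).indicator (fun x => (u x - m) ^ 2) x +
    (Qb n \ Oc n).indicator (fun _ => (m - s) ^ 2) x := i2.add i3
  have e2 : ∫ x in (Metric.ball 0 ε)ᶜ, gsq (fun x => η x * (u x - s)) x ≤
      2 * (∫ x in Qb n \ Metric.ball 0 ε, gsq u x) +
        4 * B * ((∫ x in Qb n \ Oc n, (u x - m) ^ 2) + W * (m - s) ^ 2) := by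
    rw [hW, ← smul_eq_mul (volume.real _), ← setIntegral_const, ← integral_indicator mb.compl,
      ← integral_indicator m1, ← integral_indicator m2, ← integral_indicator m2,
      ← integral_add i2 i3, ← integral_const_mul, ← integral_const_mul,
      ← integral_add (i1.const_mul 2) (i4.const_mul _)]
    refine integral_mono_of_nonneg (Eventually.of_forall fun x => indicator_nonneg
      (fun y _ => gsq_nonneg _ y) x) ((i1.const_mul 2).add (i4.const_mul _))
      (Eventually.of_forall fun x => ?_)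
    have a1 : 0 ≤ (Qb n \ Metric.ball 0 ε).indicator (gsq u) x :=
      indicator_nonneg (fun y _ => gsq_nonneg _ y) x
    have a2 : gsq η x * (u x - s) ^ 2 ≤ 2 * B * ((Qb n \ Oc n).indicator (fun x => (u x - m) ^ 2) x +
        (Qb n \ Oc n).indicator (fun _ => (m - s) ^ 2) x) := by
      by_cases hx : x ∈ Qb n \ Oc n
      · rw [indicator_of_mem hx, indicator_of_mem hx, mul_comm 2, mul_assoc]
        exact mul_le_mul ((le_abs_self _).trans (hB x))
          (by nlinarith [sq_nonneg (u x - m - (m - s))]) (sq_nonneg _) B0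
      · rw [indicator_of_notMem hx, indicator_of_notMem hx]
        rcases not_and_or.1 hx with k | k
        · simp [(ηQ x k).2]
        · rw [gsq_congr (ηO x (not_not.1 k))]
          simp [gsq, D]
    have a3 := mul_nonneg (gsq_nonneg η x) (sq_nonneg (u x - s))
    simp only
    by_cases hx : x ∈ (Metric.ball (0 : E n) ε)ᶜ
    · rw [indicator_of_mem hx]
      refine (gsq_mul_le (hη.differentiable one_ne_zero x)
        (((hu.sub contDiff_const).differentiable one_ne_zero) x)).trans ?_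
      have a4 : η x ^ 2 * gsq u x ≤ (Qb n \ Metric.ball 0 ε).indicator (gsq u) x := by
        by_cases k : x ∈ Qb n
        · rw [indicator_of_mem (show x ∈ Qb n \ _ from ⟨k, hx⟩)]
          exact mul_le_of_le_one_left (gsq_nonneg _ _) (η2 x)
        · simpa [(ηQ x k).1] using a1
      rw [gsq_sub_const]
      linarith
    · rw [indicator_of_notMem hx]
      linarith
  have e3 := hN _ cu (per_gsq pu) (gsq_nonneg u)
  have e4 := hC u hu pu
  have e5 := setIntegral_sdiff mb (int_cell cu) bc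
  have e6 : 0 ≤ ∫ x in cell n \ Metric.ball 0 ε, gsq u x := integral_nonneg (gsq_nonneg u)
  set X := ∫ x in cell n \ Metric.ball 0 ε, gsq u x
  have e7 := mul_le_mul_of_nonneg_left e4 B0
  have e8 := mul_le_mul_of_nonneg_left (e2.trans (show _ ≤ (2 * N + 4 * B * C + 1) * X +
    (4 * B * W + 1) * (m - s) ^ 2 by nlinarith [sq_nonneg (m - s)])) δ0.le
  nlinarith [mul_le_mul_of_nonneg_right δ1 e6, mul_le_mul_of_nonneg_right δ2 (sq_nonneg (m - s))]

end

end Pool.Agent.P.MP_80466e_an.Hd
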