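import Pool.Agent.P.MP_80466e_an.Hd.Bridge
import Pool.Agent.P.MP_80466e_an.Hd.Stretch

/-!
The standard bubble in every dimension.
-/

set_option autoImplicit false

noncomputable section

namespace Pool.Agent.P.MP_80466e_an.Hd

section

open MeasureTheory Filter Topology Set Real

variable {n : ℕ}

/-- Negative powers of `1 + |x|²`. -/
def Z (m : ℕ) (x : E n) : ℝ := ((1 + ‖x‖ ^ 2) ^ m)⁻¹

/-- The bubble. -/
def UU (x : E n) : ℝ := (1 + ‖x‖ ^ 2) ^ (-(((n : ℝ) - 2) / 2))

theorem Z_pos (m : ℕ) (x : E n) : 0 < Z m x := by unfold Z; positivity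

theorem Z_cont (m : ℕ) : Continuous (Z (n := n) m) :=
  ((continuous_const.add (continuous_norm.pow 2)).pow m).inv₀ fun x => by
    simp only [Pi.pow_apply, Pi.add_apply]; positivity

theorem Z_eq (m : ℕ) (x : E n) : Z m x = (1 + ‖x‖ ^ 2) ^ (-(m : ℝ)) := by
  rw [rpow_neg (by positivity), rpow_natCast, Z]

theorem Z_int {m : ℕ} (h : n < 2 * m) : Integrable (Z (n := n) m) := by
  refine (integrable_rpow_neg_one_add_norm_sq (E := E n) (μ := volume) (r := 2 * m)
    (by simpa using (by exact_mod_cast h : (n : ℝ) < 2 * m))).congr (Eventually.of_forall fun x => ?_)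
  simp only [Z_eq]
  congr 1
  ring

theorem UU_pos (x : E n) : 0 < UU x := by unfold UU; positivity

theorem UU_smooth : ContDiff ℝ 2 (UU (n := n)) :=
  (contDiff_const.add (contDiff_norm_sq ℝ)).rpow_const_of_ne fun x => by positivity

theorem UU_sq (hn : 3 ≤ n) (x : E n) : UU x ^ 2 = Z (n - 2) x := by
  rw [Z_eq, UU, ← rpow_natCast, ← rpow_mul (by positivity), Nat.cast_sub (by omega)]
  congr 1
  push_cast
  ring

theorem UU_pe (hn : 3 ≤ n) (x : E n) : UU x ^ pe n = Z n x := by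
  rw [Z_eq, UU, ← rpow_mul (by positivity), neg_mul, pe_mul hn]

theorem Lap_UU (x : E n) : -(UU x * Lap UU x) = n * (n - 2) * Z n x := by
  have d : ∀ a s : ℝ, 0 ≤ s → HasDerivAt (fun s : ℝ => (1 + s) ^ a) (a * (1 + s) ^ (a - 1)) s :=
    fun a s hs => by
      simpa using ((hasDerivAt_id' s).const_add 1).rpow_const (p := a) (Or.inl (by positivity))
  set a : ℝ := -(((n : ℝ) - 2) / 2) with ha
  have h := Lap_radial (d a) (fun s hs => (d (a - 1) s hs).const_mul a) x
  have p : 0 < 1 + ‖x‖ ^ 2 := by positivity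
  rw [show (UU : E n → ℝ) = fun y => (fun s : ℝ => (1 + s) ^ a) (‖y‖ ^ 2) from rfl, h, Z_eq,
    show -(n : ℝ) = a + (a - 1 - 1) by rw [ha]; ring, rpow_add p, rpow_sub_one p.ne' (a - 1)]
  simp only [ha]
  field_simp
  ring

theorem int_Z (hn : 3 ≤ n) : ∫ x : E n, Z n x = omega n / 2 ^ n := by
  have n0 : (0 : ℝ) < n := by linarith [sub_two_pos hn]
  have g0 := Gamma_pos_of_pos n0
  have e1 : ∀ x : E n, ∫ t in Ioi (0 : ℝ), t ^ ((n : ℝ) - 1) * exp (-((1 + ‖x‖ ^ 2) * t)) =
      Z n x * Gamma n := fun x => by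
    rw [integral_rpow_mul_exp_neg_mul_Ioi n0 (by positivity), one_div, rpow_natCast, inv_pow, Z]
  have hi : Integrable (Function.uncurry fun (x : E n) (t : ℝ) =>
      t ^ ((n : ℝ) - 1) * exp (-((1 + ‖x‖ ^ 2) * t))) (volume.prod (volume.restrict (Ioi 0))) := by
    refine (integrable_prod_iff (Measurable.aestronglyMeasurable (by fun_prop))).2
      ⟨Eventually.of_forall fun x => ?_, ((Z_int (m := n) (by omega)).mul_const (Gamma n)).congr
        (Eventually.of_forall fun x => ?_)⟩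
    · simpa [IntegrableOn] using integrableOn_rpow_mul_exp_neg_mul_rpow (p := 1) (s := (n : ℝ) - 1)
        (b := 1 + ‖x‖ ^ 2) (by linarith) one_pos (by positivity)
    · simp only [← e1, Function.uncurry_apply_pair]
      refine setIntegral_congr_fun measurableSet_Ioi fun t (ht : 0 < t) => ?_
      exact (norm_of_nonneg (by positivity)).symm
  have e2 := integral_integral_swap hi
  simp only [e1, integral_mul_const] at e2
  rw [setIntegral_congr_fun (g := fun t => π ^ ((n : ℝ) / 2) * (t ^ ((n : ℝ) / 2 - 1) *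
    exp (-(1 * t)))) measurableSet_Ioi fun t (ht : 0 < t) => by
      have := GaussianFourier.integral_rexp_neg_mul_sq_norm (V := E n) ht
      simp only [show ∀ s : ℝ, -((1 + s) * t) = -(1 * t) + -t * s from fun s => by ring, exp_add,
        integral_const_mul, this, finrank_euclideanSpace, Fintype.card_fin]
      rw [div_rpow pi_pos.le ht.le, show (n : ℝ) - 1 = n / 2 - 1 + n / 2 by ring, rpow_add ht]
      have := (rpow_pos_of_pos ht ((n : ℝ) / 2)).ne'
      field_simp, integral_const_mul, integral_rpow_mul_exp_neg_mul_Ioi (by positivity) one_pos] at e2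
  have e3 := Gamma_mul_Gamma_add_half ((n : ℝ) / 2)
  have g1 := Gamma_pos_of_pos (show 0 < (n : ℝ) / 2 + 1 / 2 by positivity)
  rw [mul_div_cancel₀ _ two_ne_zero, rpow_sub two_pos, rpow_natCast, rpow_one, sqrt_eq_rpow] at e3
  rw [omega, add_div, rpow_add pi_pos, eq_div_of_mul_eq g0.ne' e2, eq_div_of_mul_eq g1.ne' e3]
  simp only [div_one, one_rpow]
  field_simp

theorem omega_pos : 0 < omega n := by
  have := Gamma_pos_of_pos (show 0 < ((n : ℝ) + 1) / 2 by positivity)
  have := pi_pos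
  unfold omega
  positivity

theorem Ksq_eq (hn : 3 ≤ n) : (Ksq n)⁻¹ = n * (n - 2) * (∫ x : E n, Z n x) ^ (2 / (n : ℝ)) := by
  have n0 : (n : ℝ) ≠ 0 := by linarith [sub_two_pos hn]
  rw [int_Z hn, Ksq, div_rpow omega_pos.le (by positivity), ← rpow_natCast 2,
    ← rpow_mul zero_le_two, mul_div_cancel₀ _ n0, inv_div]
  norm_num
  ring

theorem Ksq_pos' (hn : 3 ≤ n) : 0 < (Ksq n)⁻¹ := by
  have := sub_two_pos hn
  have : (0 : ℝ) < n := by linarith
  have := omega_pos (n := n)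
  unfold Ksq
  positivity

theorem not_int : ¬ Integrable (Z (n := 4) 2) := fun h => by
  have h1 := (integrable_fun_norm_addHaar (volume : Measure (E 4))
    (f := fun r : ℝ => ((1 + r ^ 2) ^ 2)⁻¹)).1 h
  refine not_integrableOn_Ioi_inv (a := 1) (((h1.mono_set (Ioi_subset_Ioi zero_le_one)).const_mul
    4).mono' measurable_inv.aestronglyMeasurable
    ((ae_restrict_iff' measurableSet_Ioi).2 (Eventually.of_forall fun y (hy : 1 < y) => ?_)))
  have y0 : 0 < y := by linarith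
  simp only [finrank_euclideanSpace, Fintype.card_fin, smul_eq_mul]
  rw [norm_of_nonneg (by positivity), ← mul_assoc, le_mul_inv_iff₀ (by positivity),
    inv_mul_le_iff₀ y0]
  have : 1 ≤ y ^ 2 := by nlinarith
  norm_num
  nlinarith

end

section

open MeasureTheory Filter Topology Set

variable {n : ℕ} {V f v : E n → ℝ} {Λ τ : ℝ}

theorem cs_of {F : E n → ℝ} {R : ℝ} (h : ∀ y, R < ‖y‖ → F y = 0) : HasCompactSupport F :=
  HasCompactSupport.intro (isCompact_closedBall 0 R) fun y hy => h y (by simpa using hy)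

theorem ev_zero {F : E n → ℝ} {R : ℝ} (h : ∀ y, F y ≠ 0 → ‖y‖ < R) {y : E n} (hy : R < ‖y‖) :
    F =ᶠ[𝓝 y] fun _ => 0 := by
  filter_upwards [(isOpen_lt continuous_const continuous_norm).mem_nhds hy] with z hz
  exact not_not.1 fun k => lt_asymm hz (h z k)

theorem perSum_ev {F : E n → ℝ} (h : ∀ y, F y ≠ 0 → ‖y‖ < 1 / 4) {x : E n} (hx : x ∈ cell n) :
    PerSum F =ᶠ[𝓝 x] F := by
  filter_upwards [Metric.ball_mem_nhds x (by norm_num : (0 : ℝ) < 1 / 4)] with y hy
  refine perSum_eq_self (a := 1 / 4) (fun z hz i => (abs_le_nm z i).trans_lt (h z hz)) fun i => ?_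
  have h1 := abs_le_nm (y - x) i
  rw [mem_ball_iff_norm] at hy
  have h2 : |x i| ≤ 1 / 2 := abs_le.2 ⟨(hx i).1, (hx i).2.le⟩
  have h3 : |y i| ≤ |(y - x) i| + |x i| := by simpa using abs_add_le (y i - x i) (x i)
  linarith

theorem FW.loc (hn : 3 ≤ n) (H : FW V f Λ) (hv : ContDiff ℝ 1 v)
    (hs : ∀ y, v y ≠ 0 → ‖y‖ < 1 / 4) (hτ : 0 < τ) (ht : τ ^ pe n ≤ ∫ x, f x * |v x| ^ pe n) :
    Λ * τ ^ 2 ≤ (∫ x, gsq v x) + ∫ x, V x * v x ^ 2 := by
  have z : ∀ y, 1 / 4 < ‖y‖ → v y = 0 := fun y hy => (ev_zero hs hy).self_of_nhds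
  have toE : ∀ {F F' : E n → ℝ}, (∀ x ∈ cell n, F x = F' x) → (∀ y, 1 / 4 < ‖y‖ → F' y = 0) →
      ∫ x in cell n, F x = ∫ x, F' x := fun h1 h2 => by
    rw [setIntegral_congr_fun measurableSet_cell h1]
    exact setIntegral_eq_integral_of_forall_compl_eq_zero fun x hx => h2 x (not_le.1 fun k =>
      hx (ball_subset_cell (mem_ball_zero_iff.2 (by linarith))))
  have := H _ (contDiff_perSum (cs_of z) hv) (per_perSum v) τ hτ (ht.trans_eq (toE
    (fun x hx => by rw [(perSum_ev hs hx).self_of_nhds])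
    fun y hy => by simp [z y hy, (pe_pos hn).ne']).symm)
  rwa [toE (fun x hx => gsq_congr (perSum_ev hs hx)) fun y hy => by
    rw [gsq_congr (ev_zero hs hy)]; simp [gsq, D], toE (F' := fun x => V x * v x ^ 2)
      (fun x hx => by rw [(perSum_ev hs hx).self_of_nhds]) fun y hy => by simp [z y hy]] at this

theorem int_scale {μ : ℝ} (hμ : 0 < μ) (F : E n → ℝ) : ∫ x, F (μ⁻¹ • x) = μ ^ n * ∫ x, F x := by
  rw [Measure.integral_comp_inv_smul_of_nonneg volume F hμ.le]
  simp

theorem FW.scaled (hn : 3 ≤ n) (H : FW V f Λ) (hv : ContDiff ℝ 1 v) {R μ : ℝ}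
    (hs : ∀ y, v y ≠ 0 → ‖y‖ < R) (hμ : 0 < μ) (hR : μ * R ≤ 1 / 4) (hτ : 0 < τ)
    (ht : τ ^ pe n ≤ ∫ x, f (μ • x) * |v x| ^ pe n) :
    Λ * τ ^ 2 ≤ (∫ x, gsq v x) + μ ^ 2 * ∫ x, V (μ • x) * v x ^ 2 := by
  have κ0 := Real.rpow_pos_of_pos hμ (((n : ℝ) - 2) / 2)
  have κ1 : (μ ^ (((n : ℝ) - 2) / 2)) ^ pe n = μ ^ n := by
    rw [← Real.rpow_mul hμ.le, pe_mul hn, Real.rpow_natCast]
  have κ2 : μ ^ n = (μ ^ (((n : ℝ) - 2) / 2)) ^ 2 * μ ^ 2 := by
    rw [← mul_pow, ← Real.rpow_add_one hμ.ne', ← Real.rpow_natCast _ 2, ← Real.rpow_mul hμ.le,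
      ← Real.rpow_natCast]
    congr 1
    push_cast
    ring
  generalize μ ^ (((n : ℝ) - 2) / 2) = κ at κ0 κ1 κ2
  have sc : ∀ b U : E n → ℝ, ∫ x, b x * U (μ⁻¹ • x) = μ ^ n * ∫ x, b (μ • x) * U x := fun b U => by
    rw [← int_scale hμ]
    simp only [smul_inv_smul₀ hμ.ne']
  have h := H.loc hn (v := fun y => v (μ⁻¹ • y)) (hv.comp (contDiff_id.const_smul _))
    (fun y hy => by
      have h1 := hs _ hy
      rw [norm_smul, norm_inv, Real.norm_of_nonneg hμ.le, inv_mul_lt_iff₀ hμ] at h1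
      linarith) (mul_pos κ0 hτ) (by
      rw [sc f fun x => |v x| ^ pe n, Real.mul_rpow κ0.le hτ.le, κ1]
      gcongr)
  simp only [gsq_scale (hv.differentiable one_ne_zero), integral_const_mul] at h
  rw [int_scale hμ (gsq v), sc V fun x => v x ^ 2, κ2] at h
  refine le_of_mul_le_mul_left (a := κ ^ 2) ?_ (by positivity)
  refine le_trans (le_of_eq (by ring)) (h.trans_eq ?_)
  field_simp

theorem cont_scale {F Φ : E n → ℝ} (hF : Continuous F) (hΦ : Continuous Φ) {R : ℝ}
    (hs : ∀ y, R < ‖y‖ → Φ y = 0) :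
    Tendsto (fun μ : ℝ => ∫ y, F (μ • y) * Φ y) (𝓝[>] 0) (𝓝 (F 0 * ∫ y, Φ y)) := by
  have h : Continuous fun μ : ℝ => ∫ y, F (μ • y) * Φ y :=
    (continuous_parametric_integral_of_continuous (μ := volume)
      (f := fun (μ : ℝ) (y : E n) => F (μ • y) * Φ y) (by fun_prop)
      (isCompact_closedBall 0 R)).congr fun μ =>
        setIntegral_eq_integral_of_forall_compl_eq_zero fun y hy => by simp [hs y (by simpa using hy)]
  simpa [integral_const_mul] using (h.tendsto 0).mono_left nhdsWithin_le_nhds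

theorem FW.sob (hn : 3 ≤ n) (H : FW V f Λ) (hV : Continuous V) (hf : Continuous f) (f1 : f 0 = 1) :
    Sob n Λ := by
  intro v hv hc τ hτ ht
  obtain ⟨R, R0, hR⟩ := hc.isCompact.isBounded.subset_ball_lt 0 0
  have hs : ∀ y, v y ≠ 0 → ‖y‖ < R := fun y hy => mem_ball_zero_iff.1 (hR (subset_tsupport _ hy))
  have z : ∀ y, R < ‖y‖ → v y = 0 := fun y hy => (ev_zero hs hy).self_of_nhds
  have h3 : Tendsto (fun t : ℝ => Λ * t ^ 2) (𝓝[<] τ) (𝓝 (Λ * τ ^ 2)) :=
    ((continuous_const.mul (continuous_id.pow 2)).tendsto τ).mono_left nhdsWithin_le_nhds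
  refine le_of_tendsto h3 ?_
  filter_upwards [Ioo_mem_nhdsLT hτ] with t h
  have e1 := cont_scale hf (cont_pe hn hv.continuous) (R := R)
    fun y hy => by simp [z y hy, (pe_pos hn).ne']
  rw [f1, one_mul] at e1
  have e2 := ((((continuous_pow 2).tendsto (0 : ℝ)).mono_left nhdsWithin_le_nhds).mul
    (cont_scale hV (Φ := fun y => v y ^ 2) (hv.continuous.pow 2) (R := R)
      fun y hy => by simp [z y hy])).const_add (∫ x, gsq v x)
  rw [zero_pow two_ne_zero, zero_mul, add_zero] at e2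
  refine ge_of_tendsto e2 ?_
  filter_upwards [e1.eventually (lt_mem_nhds ((Real.rpow_lt_rpow h.1.le h.2 (pe_pos hn)).trans_le
    ht)), Ioo_mem_nhdsGT (show 0 < 1 / 4 / R by positivity)] with μ h1 h2
  exact H.scaled hn hv hs h2.1 ((le_div_iff₀ R0).1 h2.2.le) h.1 h1.le

theorem bn_ineq (hn : 3 ≤ n) (H : FW V f (Ksq n)⁻¹) (hV : Continuous V) (hf : Continuous f)
    (f0 : ∀ x, 0 ≤ f x) {k : ℕ} (hk : 2 * k < n) {C κ r : ℝ} (C0 : 0 ≤ C) (κ0 : 0 ≤ κ) (r0 : 0 < r)
    (r4 : r ≤ 1 / 4) (h1 : ∀ x, ‖x‖ < r → 1 - f x ≤ C * (‖x‖ ^ 2) ^ k)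
    (h2 : ∀ x, ‖x‖ < r → V x ≤ -κ) : ∃ C₁ C₂ C₃ : ℝ, 0 < C₃ ∧ ∀ R : ℝ, 1 ≤ R →
      C₂ / (R ^ 2) ^ k < C₃ → κ * r ^ 2 * ∫ x in Metric.ball (0 : E n) (R / 2), Z (n - 2) x ≤
        C₁ * (R ^ n / (R ^ 2) ^ (n - 2)) + n * (n - 2) * C₂ * (R ^ 2 / (R ^ 2) ^ k) := by
  let χ : ContDiffBump (0 : E n) := ⟨1 / 2, 1, by norm_num, by norm_num⟩
  have hχ : ContDiff ℝ 1 χ := χ.contDiff
  have iχ : Integrable (gsq χ) :=
    (continuous_gsq hχ).integrable_of_hasCompactSupport (hasCompactSupport_gsq χ.hasCompactSupport)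
  have iZ := Z_int (n := n) (m := n) (by omega)
  have iK := Z_int (n := n) (m := n - k) (by omega)
  have I0 : 0 < ∫ x : E n, Z n x := integral_pos_of_integrable_nonneg_nonzero (x := 0) (Z_cont n) iZ
    (fun x => (Z_pos n x).le) (Z_pos n 0).ne'
  refine ⟨4 ^ (n - 2) * ∫ x, gsq χ x, (4 ^ k + C * (r ^ 2) ^ k) * ∫ x : E n, Z (n - k) x, _, I0,
    fun R R1 hR => ?_⟩
  have R0 : 0 < R := by linarith
  let c : E n → ℝ := fun y => χ (R⁻¹ • y)
  have hc : ContDiff ℝ 1 c := hχ.comp (contDiff_id.const_smul _)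
  have nrm : ∀ y : E n, ‖R⁻¹ • y‖ = ‖y‖ / R := fun y => by
    rw [norm_smul, norm_inv, Real.norm_of_nonneg R0.le, div_eq_inv_mul]
  have cin : ∀ y, ‖y‖ < R / 2 → c y = 1 := fun y hy => χ.one_of_mem_closedBall (by
    rw [mem_closedBall_zero_iff, nrm, div_le_iff₀ R0]
    change ‖y‖ ≤ 1 / 2 * R
    linarith)
  have cs : ∀ y, c y ≠ 0 → ‖y‖ < R := fun y hy => not_le.1 fun h => hy (χ.zero_of_le_dist (by
    rw [dist_zero_right, nrm, le_div_iff₀ R0]
    exact (one_mul R).trans_le h))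
  have cz : ∀ y, R < ‖y‖ → c y = 0 := fun y hy => (ev_zero cs hy).self_of_nhds
  have hv : ContDiff ℝ 1 fun y => UU y * c y := (UU_smooth.of_le (by norm_num)).mul hc
  have big : ∀ (m : ℕ) (y : E n), R / 2 ≤ ‖y‖ → Z m y ≤ 4 ^ m / (R ^ 2) ^ m := fun m y hy => by
    rw [Z, ← inv_pow, ← div_pow]
    refine pow_le_pow_left₀ (by positivity) ?_ m
    rw [inv_eq_one_div, div_le_div_iff₀ (by positivity) (by positivity)]
    nlinarith
  have zs : ∀ y : E n, Z n y = Z k y * Z (n - k) y := fun y => by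
    rw [Z, Z, Z, ← mul_inv, ← pow_add, Nat.add_sub_cancel' (by omega)]
  have n2 := sub_two_pos hn
  have n0 : (0 : ℝ) < n := by linarith
  have hA : ∫ x, gsq (fun y => UU y * c y) x ≤ 4 ^ (n - 2) / (R ^ 2) ^ (n - 2) *
      (R⁻¹ ^ 2 * (R ^ n * ∫ x, gsq χ x)) + n * (n - 2) * ∫ x : E n, Z n x := by
    rw [ground_state UU_smooth hc (isCompact_closedBall 0 R)
      (Or.inr fun y hy => ev_zero cs (by simpa using hy)), ← int_scale R0, ← integral_const_mul,
      ← integral_const_mul, ← integral_const_mul]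
    refine add_le_add (integral_mono_of_nonneg
      (Eventually.of_forall fun x => mul_nonneg (sq_nonneg _) (gsq_nonneg _ _))
      (((iχ.comp_smul (inv_ne_zero R0.ne')).const_mul _).const_mul _)
      (Eventually.of_forall fun x => ?_)) (integral_mono_of_nonneg (Eventually.of_forall fun x => ?_)
        (iZ.const_mul _) (Eventually.of_forall fun x => ?_))
    · simp only [← gsq_scale (hχ.differentiable one_ne_zero)]
      rcases lt_or_ge ‖x‖ (R / 2) with hx | hx
      · have : c =ᶠ[𝓝 x] fun _ => 1 := by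
          filter_upwards [(isOpen_lt continuous_norm continuous_const).mem_nhds hx]
            with z hz using cin z hz
        rw [gsq_congr this]
        simp [gsq, D]
      · rw [UU_sq hn]
        exact mul_le_mul_of_nonneg_right (big _ x hx) (gsq_nonneg _ _)
    · have := Z_pos n x
      simp only [Lap_UU, Pi.zero_apply]
      positivity
    · have := Z_pos n x
      simp only [Lap_UU]
      exact mul_le_of_le_one_right (by positivity) (pow_le_one₀ χ.nonneg χ.le_one)
  have nμ : ∀ y : E n, ‖(r / R) • y‖ = r / R * ‖y‖ := fun y => by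
    rw [norm_smul, Real.norm_of_nonneg (by positivity)]
  have nr : ∀ y : E n, ‖y‖ < R → ‖(r / R) • y‖ < r := fun y hy => by
    rw [nμ, div_mul_eq_mul_div, div_lt_iff₀ R0]
    gcongr
  set e := (4 ^ k + C * (r ^ 2) ^ k) / (R ^ 2) ^ k with he
  have hB : (∫ x : E n, Z n x) - e * ∫ x : E n, Z (n - k) x ≤
      ∫ x, f ((r / R) • x) * |UU x * c x| ^ pe n := by
    rw [← integral_const_mul, ← integral_sub iZ (iK.const_mul e)]
    refine integral_mono (iZ.sub (iK.const_mul e)) (((hf.comp (continuous_const_smul _)).mul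
      (cont_pe hn hv.continuous)).integrable_of_hasCompactSupport (cs_of (R := R) fun y hy => by
        simp [cz y hy, (pe_pos hn).ne'])) fun y => ?_
    have p1 := Z_pos (n - k) y
    have p2 : 0 ≤ C * (r ^ 2) ^ k / (R ^ 2) ^ k := by positivity
    have p3 : (0 : ℝ) ≤ 4 ^ k / (R ^ 2) ^ k := by positivity
    simp only [he, add_div]
    rcases lt_or_ge ‖y‖ (R / 2) with hy | hy
    · have a1 := h1 _ (nr y (by linarith))
      have a2 : (‖y‖ ^ 2) ^ k * Z k y ≤ 1 := by
        rw [Z, mul_inv_le_iff₀ (by positivity), one_mul]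
        gcongr
        linarith
      rw [nμ, mul_pow, mul_pow, div_pow, div_pow, ← mul_assoc, ← mul_div_assoc] at a1
      rw [cin y hy, mul_one, abs_of_pos (UU_pos y), UU_pe hn, zs]
      have a3 := mul_le_mul_of_nonneg_right a1 (mul_pos (Z_pos k y) p1).le
      have a4 := mul_le_mul_of_nonneg_left a2 (mul_nonneg p2 p1.le)
      nlinarith [mul_nonneg p3 p1.le]
    · have a1 := mul_le_mul_of_nonneg_right (big k y hy) p1.le
      have a2 : 0 ≤ f ((r / R) • y) * |UU y * c y| ^ pe n := mul_nonneg (f0 _) (by positivity)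
      rw [zs]
      nlinarith [mul_nonneg p2 p1.le]
  have hC : ∫ x, V ((r / R) • x) * (UU x * c x) ^ 2 ≤
      -κ * ∫ x in Metric.ball (0 : E n) (R / 2), Z (n - 2) x := by
    rw [← integral_indicator measurableSet_ball, ← integral_const_mul]
    refine integral_mono (((hV.comp (continuous_const_smul _)).mul
      (hv.continuous.pow 2)).integrable_of_hasCompactSupport (cs_of (R := R) fun y hy => by
        simp [cz y hy])) (((integrable_indicator_iff measurableSet_ball).2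
          (((Z_cont _).continuousOn.integrableOn_compact (isCompact_closedBall 0 (R / 2))).mono_set
            Metric.ball_subset_closedBall)).const_mul _) fun y => ?_
    by_cases hy : y ∈ Metric.ball (0 : E n) (R / 2)
    · have hy' := mem_ball_zero_iff.1 hy
      simp only [indicator_of_mem hy, cin y hy', mul_one, UU_sq hn]
      exact mul_le_mul_of_nonneg_right (h2 _ (nr y (by linarith))) (Z_pos _ y).le
    · simp only [indicator_of_notMem hy, mul_zero]
      by_cases k : c y = 0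
      · simp [k]
      · exact mul_nonpos_of_nonpos_of_nonneg ((h2 _ (nr y (cs y k))).trans (by linarith))
          (sq_nonneg _)
  have e0 : 0 ≤ e * ∫ x : E n, Z (n - k) x :=
    mul_nonneg (by positivity) (integral_nonneg fun x => (Z_pos _ x).le)
  rw [mul_div_right_comm, ← he] at hR
  set W := (∫ x : E n, Z n x) - e * ∫ x : E n, Z (n - k) x with hW
  have W0 : 0 < W := sub_pos.2 hR
  have h := H.scaled hn hv (fun y hy => cs y (right_ne_zero_of_mul hy)) (μ := r / R) (by positivity)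
    (by rwa [div_mul_cancel₀ _ R0.ne']) (Real.rpow_pos_of_pos W0 (pe n)⁻¹)
    (by rwa [Real.rpow_inv_rpow W0.le (pe_pos hn).ne'])
  have hD : n * (n - 2) * W ≤ (Ksq n)⁻¹ * (W ^ (pe n)⁻¹) ^ 2 := by
    rw [Ksq_eq hn, mul_assoc (n * (n - 2) : ℝ)]
    refine mul_le_mul_of_nonneg_left (le_trans (le_of_eq ?_) (mul_le_mul_of_nonneg_right
      (Real.rpow_le_rpow W0.le (by linarith) (by positivity)) (sq_nonneg _))) (by positivity)
    rw [← Real.rpow_natCast _ 2, ← Real.rpow_mul W0.le, ← Real.rpow_add W0, eq_comm]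
    convert Real.rpow_one W
    rw [pe]
    push_cast
    field_simp
    ring
  have h3 := mul_le_mul_of_nonneg_left hC (sq_nonneg (r / R))
  have h4 : (r / R) ^ 2 * (κ * ∫ x in Metric.ball (0 : E n) (R / 2), Z (n - 2) x) ≤
      4 ^ (n - 2) / (R ^ 2) ^ (n - 2) * (R⁻¹ ^ 2 * (R ^ n * ∫ x, gsq χ x)) +
        n * (n - 2) * (e * ∫ x : E n, Z (n - k) x) := by linarith
  refine le_trans (le_of_eq ?_) ((mul_le_mul_of_nonneg_left h4 (sq_nonneg R)).trans_eq ?_)
  · field_simp
  · rw [he]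
    field_simp

theorem bn (H : FW V f (Ksq n)⁻¹) (hV : Continuous V) (hf : Continuous f) (f0 : ∀ x, 0 ≤ f x)
    {k : ℕ} (hk : n = 4 ∧ k = 1 ∨ 5 ≤ n ∧ k = 2) {C : ℝ} (C0 : 0 ≤ C)
    (h1 : ∀ x, ‖x‖ < 1 / 8 → 1 - f x ≤ C * (‖x‖ ^ 2) ^ k) : 0 ≤ V 0 := by
  by_contra h
  obtain ⟨ε, ε0, hε⟩ := Metric.eventually_nhds_iff.1
    (hV.continuousAt.eventually (gt_mem_nhds (show V 0 < V 0 / 2 by linarith)))
  have r0 : 0 < min ε (1 / 8) := lt_min ε0 (by norm_num)
  have κ0 : 0 < -(V 0 / 2) := by linarith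
  obtain ⟨C₁, C₂, C₃, C3, hR⟩ := bn_ineq (by omega) H hV hf f0 (k := k) (by omega) C0 κ0.le r0
    ((min_le_right _ _).trans (by norm_num)) (fun x hx => h1 x (hx.trans_le (min_le_right _ _)))
    fun x hx => by
      simpa using (hε (y := x) (by simpa using hx.trans_le (min_le_left _ _))).le
  have p : 0 < -(V 0 / 2) * min ε (1 / 8) ^ 2 := by positivity
  generalize -(V 0 / 2) * min ε (1 / 8) ^ 2 = a at hR p
  have ev := ((eventually_ge_atTop 1).and ((tendsto_const_nhds.div_atTop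
    ((tendsto_pow_atTop (show k ≠ 0 by omega)).comp (tendsto_pow_atTop two_ne_zero))).eventually
      (gt_mem_nhds C3))).mono fun R h => And.intro h.1 (hR R h.1 h.2)
  have io : ∀ R, IntegrableOn (Z (n := n) (n - 2)) (Metric.ball 0 R) := fun R =>
    ((Z_cont _).continuousOn.integrableOn_compact (isCompact_closedBall 0 R)).mono_set
      Metric.ball_subset_closedBall
  rcases hk with ⟨rfl, rfl⟩ | ⟨n5, rfl⟩
  · refine not_int ((aecover_ball (l := atTop) (r := fun R : ℝ => R / 2) (tendsto_id.atTop_div_const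
      two_pos)).integrable_of_integral_bounded_of_nonneg_ae ((C₁ + 8 * C₂) / a) (fun R => io _)
      (Eventually.of_forall fun x => (Z_pos _ x).le) (ev.mono fun R h => ?_))
    have R0 : R ≠ 0 := by linarith [h.1]
    rw [le_div_iff₀' p]
    refine h.2.trans_eq ?_
    norm_num
    field_simp
  · have t := ((tendsto_pow_div_pow_atTop_zero (𝕜 := ℝ) (show n < 2 * (n - 2) by omega)).const_mul
      C₁).add ((tendsto_pow_div_pow_atTop_zero (𝕜 := ℝ) (show 2 < 2 * 2 by omega)).const_mul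
        (n * (n - 2) * C₂))
    have N0 : 0 < ∫ x in Metric.ball (0 : E n) (1 / 2), Z (n - 2) x :=
      (setIntegral_pos_iff_support_of_nonneg_ae (Eventually.of_forall fun x => (Z_pos _ x).le)
        (io _)).2 (by
          rw [Function.support_eq_univ fun x => (Z_pos _ x).ne', univ_inter]
          exact Metric.measure_ball_pos _ _ (by norm_num))
    simp only [pow_mul, mul_zero, add_zero] at t
    refine (mul_pos p N0).not_ge (ge_of_tendsto t (ev.mono fun R h => le_trans ?_ h.2))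
    exact mul_le_mul_of_nonneg_left (setIntegral_mono_set (io _)
      (Eventually.of_forall fun x => (Z_pos _ x).le)
      (Metric.ball_subset_ball (by linarith [h.1])).eventuallyLE) p.le

end

end Pool.Agent.P.MP_80466e_an.Hd
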