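import Pool.Agent.P.MP_80466e_an.Hd.Cell

/-!
The Poincare inequality on convex sets and outside a small ball of the torus.
-/

set_option autoImplicit false

noncomputable section

namespace Pool.Agent.P.MP_80466e_an.Hd

open MeasureTheory Filter Topology Set

variable {n : ℕ}

theorem mean_sq {X : Type} [MeasurableSpace X] {μ : Measure X} {g v : X → ℝ} (g0 : ∀ x, 0 ≤ g x)
    (g1 : ∫ x, g x ∂μ = 1) (i1 : Integrable (fun x => g x * v x) μ)
    (i2 : Integrable (fun x => g x * v x ^ 2) μ) :
    (∫ x, g x * v x ∂μ) ^ 2 ≤ ∫ x, g x * v x ^ 2 ∂μ := by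
  have i0 := integrable_of_integral_eq_one g1
  set a := ∫ x, g x * v x ∂μ with ha
  have h : 0 ≤ ∫ x, g x * (v x - a) ^ 2 ∂μ :=
    integral_nonneg fun x => mul_nonneg (g0 x) (sq_nonneg _)
  have e : (fun x => g x * (v x - a) ^ 2) =
      fun x => (g x * v x ^ 2 - 2 * a * (g x * v x)) + a ^ 2 * g x := by
    funext x; ring
  have i3 : Integrable (fun x => g x * v x ^ 2 - 2 * a * (g x * v x)) μ := i2.sub (i1.const_mul _)
  rw [e, integral_add i3 (i0.const_mul _), integral_sub i2 (i1.const_mul _), integral_const_mul,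
    integral_const_mul, g1, ← ha] at h
  nlinarith

theorem seg {u : E n → ℝ} (hu : ContDiff ℝ 1 u) (x h : E n) :
    (u (x + h) - u x) ^ 2 ≤ ‖h‖ ^ 2 * ∫ t in Ioc (0 : ℝ) 1, gsq u (x + t • h) := by
  have c0 : Continuous fun t : ℝ => x + t • h := by fun_prop
  have c1 : Continuous fun t : ℝ => fderiv ℝ u (x + t • h) h :=
    ((hu.continuous_fderiv one_ne_zero).comp c0).clm_apply continuous_const
  have d : ∀ t : ℝ, HasDerivAt (fun t : ℝ => u (x + t • h)) (fderiv ℝ u (x + t • h) h) t := by
    intro t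
    have h1 : HasDerivAt (fun t : ℝ => x + t • h) h t := by
      simpa using ((hasDerivAt_id t).smul_const h).const_add x
    exact (hu.differentiable one_ne_zero _).hasFDerivAt.comp_hasDerivAt t h1
  have e := intervalIntegral.integral_eq_sub_of_hasDerivAt (a := 0) (b := 1) (fun t _ => d t)
    (c1.intervalIntegrable _ _)
  rw [intervalIntegral.integral_of_le zero_le_one] at e
  simp only [one_smul, zero_smul, add_zero] at e
  have io : ∀ {F : ℝ → ℝ}, Continuous F → IntegrableOn F (Ioc 0 1) := fun hF =>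
    hF.integrableOn_Icc.mono_set Ioc_subset_Icc_self
  have h2 := mean_sq (μ := volume.restrict (Ioc (0 : ℝ) 1)) (g := fun _ => 1)
    (v := fun t => fderiv ℝ u (x + t • h) h) (fun _ => zero_le_one) (by simp)
    (io (continuous_const.mul c1)) (io (continuous_const.mul (c1.pow 2)))
  simp only [one_mul] at h2
  rw [← e, ← integral_const_mul]
  exact h2.trans (integral_mono (io (c1.pow 2))
    (io (continuous_const.mul ((continuous_gsq hu).comp c0))) fun t => fderiv_sq_le _ _ _)

theorem poin {S : Set (E n)} (hS : Convex ℝ S) (mS : MeasurableSet S) {R : ℝ}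
    (bS : S ⊆ Metric.closedBall 0 R) {u : E n → ℝ} (hu : ContDiff ℝ 1 u) :
    ∫⁻ x in S, ∫⁻ y in S, ENNReal.ofReal ((u y - u x) ^ 2) ≤
      volume (Metric.closedBall (0 : E n) (2 * R)) *
        (ENNReal.ofReal ((2 * R) ^ 2) * ∫⁻ x in S, ENNReal.ofReal (gsq u x)) := by
  set B := Metric.closedBall (0 : E n) (2 * R)
  set c := ENNReal.ofReal ((2 * R) ^ 2)
  let H : E n → ENNReal := S.indicator fun x => ENNReal.ofReal (gsq u x)
  have mH : Measurable H := (continuous_gsq hu).measurable.ennreal_ofReal.indicator mS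
  have step : ∀ x ∈ S, ∫⁻ y in S, ENNReal.ofReal ((u y - u x) ^ 2) ≤
      ∫⁻ h in B, c * ∫⁻ t in Ioc (0 : ℝ) 1, H (x + t • h) := by
    intro x hx
    rw [← lintegral_indicator mS, ← lintegral_add_left_eq_self _ x,
      ← lintegral_indicator measurableSet_closedBall]
    refine lintegral_mono fun h => ?_
    by_cases hh : x + h ∈ S
    · have hn : ‖h‖ ≤ 2 * R := by
        have h1 := mem_closedBall_zero_iff.1 (bS hx)
        have h2 := mem_closedBall_zero_iff.1 (bS hh)
        have h3 := norm_sub_le (x + h) x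
        rw [add_sub_cancel_left] at h3
        linarith
      rw [indicator_of_mem hh, indicator_of_mem (mem_closedBall_zero_iff.2 hn)]
      refine (ENNReal.ofReal_le_ofReal (seg hu x h)).trans ?_
      have cg : Continuous fun t : ℝ => gsq u (x + t • h) := (continuous_gsq hu).comp (by fun_prop)
      rw [ENNReal.ofReal_mul (sq_nonneg _), ofReal_integral_eq_lintegral_ofReal
        (cg.integrableOn_Icc.mono_set Ioc_subset_Icc_self)
        (Eventually.of_forall fun t => gsq_nonneg _ _)]
      refine mul_le_mul' (ENNReal.ofReal_le_ofReal (pow_le_pow_left₀ (norm_nonneg _) hn 2))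
        (setLIntegral_mono' measurableSet_Ioc fun t ht => ?_)
      simp only [H, indicator_of_mem (hS.add_smul_mem hx hh ⟨ht.1.le, ht.2⟩), le_refl]
    · simp [indicator_of_notMem hh]
  have m3 : Measurable fun p : (E n × E n) × ℝ => H (p.1.1 + p.2 • p.1.2) := mH.comp (by fun_prop)
  refine (setLIntegral_mono' mS step).trans ((setLIntegral_le_lintegral _ _).trans ?_)
  rw [lintegral_lintegral_swap
    ((m3.lintegral_prod_right' (ν := volume.restrict (Ioc 0 1))).const_mul c).aemeasurable]
  have e : ∀ h : E n, ∫⁻ x, c * ∫⁻ t in Ioc (0 : ℝ) 1, H (x + t • h) =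
      c * ∫⁻ x in S, ENNReal.ofReal (gsq u x) := by
    intro h
    have m2 : Measurable fun p : E n × ℝ => H (p.1 + p.2 • h) := mH.comp (by fun_prop)
    rw [lintegral_const_mul' _ _ ENNReal.ofReal_ne_top, lintegral_lintegral_swap m2.aemeasurable]
    simp only [lintegral_add_right_eq_self H]
    simp [H, c, lintegral_indicator mS]
  simp only [e]
  rw [setLIntegral_const, mul_comm]

theorem poin_mean {S : Set (E n)} (hS : Convex ℝ S) (mS : MeasurableSet S) {R : ℝ}
    (bS : S ⊆ Metric.closedBall 0 R) {g : E n → ℝ} (hg : Continuous g) (g0 : ∀ x, 0 ≤ g x)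
    (gS : ∀ x, x ∉ S → g x = 0) (g1 : ∫ x, g x = 1) : ∃ C : ℝ, 0 ≤ C ∧
      ∀ u : E n → ℝ, ContDiff ℝ 1 u → ∫ x in S, (u x - ∫ y, g y * u y) ^ 2 ≤ C * ∫ x in S, gsq u x := by
  have gc : HasCompactSupport g :=
    HasCompactSupport.intro (isCompact_closedBall 0 R) fun x hx => gS x fun h => hx (bS h)
  obtain ⟨M, hM⟩ := hg.bounded_above_of_compact_support gc
  have hM0 : 0 ≤ M := (norm_nonneg _).trans (hM 0)
  have io : ∀ {F : E n → ℝ}, Continuous F → IntegrableOn F S := fun hF =>
    (hF.continuousOn.integrableOn_compact (isCompact_closedBall 0 R)).mono_set bS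
  refine ⟨M * (volume.real (Metric.closedBall (0 : E n) (2 * R)) * (2 * R) ^ 2), by positivity,
    fun u hu => ?_⟩
  have cu := hu.continuous
  have pt : ∀ x, ENNReal.ofReal ((u x - ∫ y, g y * u y) ^ 2) ≤
      ENNReal.ofReal M * ∫⁻ y in S, ENNReal.ofReal ((u y - u x) ^ 2) := by
    intro x
    have c1 : Continuous fun y => (u y - u x) ^ 2 := by fun_prop
    have i2 : Integrable fun y => g y * (u y - u x) ^ 2 :=
      (hg.mul c1).integrable_of_hasCompactSupport gc.mul_right
    have h1 := mean_sq (v := fun y => u y - u x) g0 g1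
      ((hg.mul (cu.sub continuous_const)).integrable_of_hasCompactSupport gc.mul_right) i2
    have i3 : Integrable fun y => g y * u y :=
      (hg.mul cu).integrable_of_hasCompactSupport gc.mul_right
    simp only [mul_sub] at h1
    rw [integral_sub i3 ((integrable_of_integral_eq_one g1).mul_const _), integral_mul_const, g1,
      one_mul] at h1
    rw [← ofReal_integral_eq_lintegral_ofReal (io c1) (Eventually.of_forall fun y => sq_nonneg _),
      ← ENNReal.ofReal_mul hM0, ← integral_const_mul, sub_sq_comm]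
    refine ENNReal.ofReal_le_ofReal (h1.trans ?_)
    rw [← setIntegral_eq_integral_of_forall_compl_eq_zero (s := S) fun y hy => by simp [gS y hy]]
    exact integral_mono i2.integrableOn (io (continuous_const.mul c1)) fun y =>
      mul_le_mul_of_nonneg_right ((le_abs_self _).trans (hM y)) (sq_nonneg _)
  have nn : 0 ≤ ∫ x in S, gsq u x := integral_nonneg fun x => gsq_nonneg _ _
  rw [← ENNReal.ofReal_le_ofReal_iff (by positivity), ofReal_integral_eq_lintegral_ofReal
    (io (by fun_prop)) (Eventually.of_forall fun y => sq_nonneg _)]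
  refine (lintegral_mono pt).trans ?_
  rw [lintegral_const_mul' _ _ ENNReal.ofReal_ne_top, mul_assoc, ENNReal.ofReal_mul hM0, mul_assoc,
    ENNReal.ofReal_mul measureReal_nonneg, ENNReal.ofReal_mul (sq_nonneg _),
    ofReal_integral_eq_lintegral_ofReal (io (continuous_gsq hu))
      (Eventually.of_forall fun y => gsq_nonneg _ _),
    ofReal_measureReal (isCompact_closedBall _ _).measure_lt_top.ne]
  exact mul_le_mul_right (poin hS mS bS hu) _

/-- Closed boxes. -/
def box (lo hi : Fin n → ℝ) : Set (E n) := {x | ∀ j, lo j ≤ x j ∧ x j ≤ hi j}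

theorem box_convex (lo hi : Fin n → ℝ) : Convex ℝ (box lo hi) := by
  intro x hx y hy a b ha hb hab j
  have e : ∀ t : ℝ, t = a * t + b * t := fun t => by rw [← add_mul, hab, one_mul]
  simp only [PiLp.add_apply, PiLp.smul_apply, smul_eq_mul]
  constructor
  · rw [e (lo j)]
    exact add_le_add (mul_le_mul_of_nonneg_left (hx j).1 ha) (mul_le_mul_of_nonneg_left (hy j).1 hb)
  · rw [e (hi j)]
    exact add_le_add (mul_le_mul_of_nonneg_left (hx j).2 ha) (mul_le_mul_of_nonneg_left (hy j).2 hb)

theorem box_closed (lo hi : Fin n → ℝ) : IsClosed (box lo hi) := by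
  simp only [box, ofPred_forall, ofPred_and]
  exact isClosed_iInter fun j =>
    (isClosed_le continuous_const (by fun_prop)).inter (isClosed_le (by fun_prop) continuous_const)

theorem box_sub {lo hi : Fin n → ℝ} (h1 : ∀ j, -1 ≤ lo j) (h2 : ∀ j, hi j ≤ 1) :
    box lo hi ⊆ Metric.closedBall 0 (n + 1) := by
  intro x hx
  have h : ‖x‖ ^ 2 ≤ n := by
    rw [EuclideanSpace.real_norm_sq_eq]
    calc ∑ i, x i ^ 2 ≤ ∑ _i : Fin n, (1 : ℝ) :=
          Finset.sum_le_sum fun i _ => by nlinarith [(hx i).1, (hx i).2, h1 i, h2 i]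
      _ = n := by simp
  rw [mem_closedBall_zero_iff]
  nlinarith [norm_nonneg x, (Nat.cast_nonneg n : (0 : ℝ) ≤ n)]

/-- The big cube. -/
def Qb (n : ℕ) : Set (E n) := box (fun _ => -(3 / 4)) fun _ => 3 / 4

/-- The open unit cube. -/
def Oc (n : ℕ) : Set (E n) := {x | ∀ j, |x j| < 1 / 2}

theorem Oc_open : IsOpen (Oc n) := by
  simp only [Oc, ofPred_forall]
  exact isOpen_iInter_of_finite fun j => isOpen_lt (by fun_prop) continuous_const

theorem Qb_sub : Qb n ⊆ Metric.closedBall 0 (n + 1) :=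
  box_sub (fun _ => by norm_num) fun _ => by norm_num

theorem out_cov {ε : ℝ} {K : Set (E n)} (mK : MeasurableSet K)
    (bK : K ⊆ Metric.closedBall 0 (n + 1)) (h : ∀ x ∈ K, ∀ k : Lat n, ε ≤ ‖k.1 + x‖) :
    ∃ N : ℝ, 0 ≤ N ∧ ∀ Φ : E n → ℝ, Continuous Φ → Per Φ → (∀ x, 0 ≤ Φ x) →
      ∫ x in K, Φ x ≤ N * ∫ x in cell n \ Metric.ball 0 ε, Φ x := by
  simpa using cover (ι := Unit) (S := fun _ => cell n \ Metric.ball 0 ε) mK
    (fun _ => measurableSet_cell.diff measurableSet_ball) bK
    (fun _ => sdiff_subset.trans cell_subset) fun x hx => by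
      obtain ⟨k, hk, -⟩ := exists_unique_cell x
      exact ⟨k, (), hk, fun hb => (h x hx k).not_gt (mem_ball_zero_iff.1 hb)⟩

theorem out_poin {x0 : E n} {ε : ℝ} (hε : 0 < ε) (hx0 : ∀ i, 2 * ε < x0 i ∧ x0 i < 1 - 2 * ε)
    {g : E n → ℝ} (hg : Continuous g) (g0 : ∀ x, 0 ≤ g x)
    (gS : ∀ x, x ∉ Metric.ball x0 ε → g x = 0) (g1 : ∫ x, g x = 1) : ∃ C : ℝ, 0 ≤ C ∧
      ∀ u : E n → ℝ, ContDiff ℝ 1 u → Per u → ∫ x in Qb n \ Oc n, (u x - ∫ y, g y * u y) ^ 2 ≤
        C * ∫ x in cell n \ Metric.ball 0 ε, gsq u x := by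
  let S : Fin n → Set (E n) := fun i =>
    box (fun j => if j = i then ε else 0) fun j => if j = i then 1 - ε else 1
  have mS : ∀ i, MeasurableSet (S i) := fun i => (box_closed _ _).measurableSet
  have bS : ∀ i, S i ⊆ Metric.closedBall 0 (n + 1) := fun i =>
    box_sub (fun j => by split_ifs <;> linarith) fun j => by split_ifs <;> linarith
  obtain ⟨N, hN, h1⟩ := cover (K := Qb n \ Oc n) (S := S)
    ((box_closed _ _).measurableSet.diff Oc_open.measurableSet) mS (sdiff_subset.trans Qb_sub) bS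
    fun x hx => by
      obtain ⟨i, hi⟩ := not_forall.1 hx.2
      refine ⟨⟨WithLp.toLp 2 fun j => ((-⌊x j⌋ : ℤ) : ℝ), fun j => ⟨_, rfl⟩⟩, i, fun j => ?_⟩
      have a1 := Int.floor_le (x j)
      have a2 := Int.lt_floor_add_one (x j)
      simp only [PiLp.add_apply, Int.cast_neg]
      split_ifs with hj
      · subst hj
        obtain ⟨b1, b2⟩ := hx.1 j
        obtain ⟨b3, b4⟩ := hx0 j
        rcases le_abs.1 (not_lt.1 hi) with b5 | b5
        · rw [Int.floor_eq_zero_iff.2 ⟨by linarith, by linarith⟩]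
          constructor <;> push_cast <;> linarith
        · rw [Int.floor_eq_iff.2 (show ((-1 : ℤ) : ℝ) ≤ x j ∧ x j < (-1 : ℤ) + 1 by
            constructor <;> push_cast <;> linarith)]
          constructor <;> push_cast <;> linarith
      · constructor <;> linarith
  choose C hC h2 using fun i => poin_mean (box_convex _ _) (mS i) (bS i) hg g0 (fun x hx =>
    gS x fun hb => hx fun j => by
      have := abs_lt.1 ((abs_le_nm (x - x0) j).trans_lt (mem_ball_iff_norm.1 hb))
      obtain ⟨b3, b4⟩ := hx0 j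
      simp only [PiLp.sub_apply] at this ⊢
      split_ifs <;> constructor <;> linarith [this.1, this.2]) g1
  choose M hM h3 using fun i => out_cov (ε := ε) (mS i) (bS i) fun x hx k => by
    refine le_trans ?_ (abs_le_nm _ i)
    obtain ⟨m, hm⟩ := k.2 i
    have := hx i
    simp only [if_true] at this
    rw [PiLp.add_apply, hm, le_abs]
    rcases le_or_gt 0 m with b | b
    · have : (0 : ℝ) ≤ m := by exact_mod_cast b
      left; linarith
    · have : (m : ℝ) ≤ -1 := by exact_mod_cast Int.le_sub_one_of_lt b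
      right; linarith
  refine ⟨N * ∑ i, C i * M i, mul_nonneg hN
    (Finset.sum_nonneg fun i _ => mul_nonneg (hC i) (hM i)), fun u hu pu => ?_⟩
  refine (h1 (fun x => (u x - ∫ y, g y * u y) ^ 2) ((hu.continuous.sub continuous_const).pow 2)
    (fun x i => by simp only [pu x i]) fun x => sq_nonneg _).trans ?_
  rw [mul_assoc, Finset.sum_mul]
  refine mul_le_mul_of_nonneg_left (Finset.sum_le_sum fun i _ => (h2 i u hu).trans ?_) hN
  rw [mul_assoc]
  exact mul_le_mul_of_nonneg_left
    (h3 i _ (continuous_gsq hu) (per_gsq pu) fun x => gsq_nonneg _ _) (hC i)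

end Pool.Agent.P.MP_80466e_an.Hd
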