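import Pool.Agent.P.MP_80466e_an.Hd.Loc

/-!
The two profiles.
-/

set_option autoImplicit false

noncomputable section

namespace Pool.Agent.P.MP_80466e_an.Hd

section

open MeasureTheory Filter Topology Set

variable {n : ℕ}

theorem cut (hn : 0 < n) {F : E n → ℝ} (hF : ContDiff ℝ (⊤ : ℕ∞) F) {m : ℝ}
    (hm : ∀ x ∈ cell n, m ≤ F x) :
    ∃ f : E n → ℝ, ContDiff ℝ (⊤ : ℕ∞) f ∧ Per f ∧ (∀ x, m ≤ f x) ∧ (∀ x ∈ cell n, f x ≤ F x) ∧
      (∀ x, ‖x‖ < 1 / 8 → f x = F x) ∧ ∃ x, f x = m := by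
  let χ : ContDiffBump (0 : E n) := ⟨1 / 8, 1 / 4, by norm_num, by norm_num⟩
  have e : ∀ x ∈ cell n, PerSum (fun y => χ y * (F y - m)) x = χ x * (F x - m) := fun x hx =>
    (perSum_ev (fun y hy => not_le.1 fun h => left_ne_zero_of_mul hy
      (χ.zero_of_le_dist (by rwa [dist_zero_right]))) hx).self_of_nhds
  have p : Per fun x => m + PerSum (fun y => χ y * (F y - m)) x := fun x i => by
    simp only [per_perSum _ x i]
  refine ⟨_, contDiff_const.add (contDiff_perSum (F := fun y => χ y * (F y - m))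
    χ.hasCompactSupport.mul_right
    (χ.contDiff.mul (hF.sub contDiff_const))), p, fun x => ?_, fun x hx => ?_, fun x hx => ?_,
    EuclideanSpace.single ⟨0, hn⟩ (1 / 4), ?_⟩
  · obtain ⟨y, hy, h⟩ := per_cell p x
    rw [← h, e y hy]
    exact le_add_of_nonneg_right (mul_nonneg χ.nonneg (sub_nonneg.2 (hm y hy)))
  · rw [e x hx]
    linarith [mul_le_of_le_one_left (sub_nonneg.2 (hm x hx)) (χ.le_one (x := x))]
  · rw [e x (ball_subset_cell (mem_ball_zero_iff.2 (by linarith))),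
      χ.one_of_mem_closedBall (mem_closedBall_zero_iff.2 hx.le)]
    ring
  · rw [e _ (ball_subset_cell (by simp; norm_num)), χ.zero_of_le_dist (by simp [χ])]
    ring

theorem core' {j : ℕ} (hn : 2 * j + 4 ≤ n) {x0 : E n} {ε : ℝ} (hε : 0 < ε)
    (hx0 : ∀ i, 2 * ε < x0 i ∧ x0 i < 1 - 2 * ε) : ∃ g : E n → ℝ, ContDiff ℝ (⊤ : ℕ∞) g ∧ Per g ∧
      (∀ x, 0 ≤ g x) ∧ (∀ x, g x ≠ 0 → ∃ k : Lat n, k.1 + x ∈ Metric.ball x0 ε) ∧
      ∫ x in cell n, g x = 1 ∧ ∀ θ : ℝ, 0 < θ → ∃ A : ℝ, 0 ≤ A ∧ ∀ Λ : ℝ, Sob n Λ →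
        ∀ u : E n → ℝ, ContDiff ℝ 1 u → Per u → ∀ s τ : ℝ, 0 < τ →
          τ ^ pe n ≤ ∫ x in cell n, wt A (j + 1) x * |u x - s| ^ pe n →
          Λ * τ ^ 2 ≤ (∫ x in cell n, gsq u x) + θ * ((∫ y in cell n, g y * u y) - s) ^ 2 := by
  let b : ContDiffBump x0 := ⟨ε / 2, ε, by positivity, by linarith⟩
  have hb : ContDiff ℝ (⊤ : ℕ∞) (b.normed volume) := b.contDiff_normed
  have bc := b.hasCompactSupport_normed (μ := volume)
  have bS : ∀ x, x ∉ Metric.ball x0 ε → b.normed volume x = 0 := fun x hx =>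
    Function.notMem_support.1 (by rwa [b.support_normed_eq])
  have e : ∀ u : E n → ℝ, Continuous u → Per u → ∫ y, b.normed volume y * u y =
      ∫ y in cell n, PerSum (b.normed volume) y * u y := fun u hu pu => unfold_integral bc pu
    ((hb.continuous.mul hu).integrable_of_hasCompactSupport bc.mul_right)
  refine ⟨_, contDiff_perSum bc hb, per_perSum _, fun x => tsum_nonneg fun k => b.nonneg_normed _,
    fun x hx => not_not.1 fun h => hx ?_, ?_, fun θ hθ => ?_⟩
  · simp only [PerSum, fun k : Lat n => bS _ (not_exists.1 h k), tsum_zero]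
  · simpa [b.integral_normed] using (e (fun _ => 1) continuous_const fun _ _ => rfl).symm
  · obtain ⟨A, A0, hA⟩ := core hn hε hx0 hb.continuous b.nonneg_normed bS b.integral_normed hθ
    exact ⟨A, A0, fun Λ hS u hu pu s τ hτ h => e u hu.continuous pu ▸ hA Λ hS u hu pu s τ hτ h⟩

theorem prof2 {j : ℕ} (hn : 2 * j + 4 ≤ n) {W : E n → ℝ} (hW : Continuous W) (pW : Per W)
    (W0 : ∀ x, 0 ≤ W x) {z : E n} (hz : W z ≠ 0) : ∃ f : E n → ℝ, ContDiff ℝ (⊤ : ℕ∞) f ∧ Per f ∧
      (∀ x, 0 < f x) ∧ (∀ x, f x ≤ 1) ∧ f 0 = 1 ∧ (∃ x, f x < 1) ∧ (∃ C : ℝ, 0 ≤ C ∧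
        ∀ x, ‖x‖ < 1 / 8 → 1 - f x ≤ C * (‖x‖ ^ 2) ^ (j + 1)) ∧ ∀ Λ : ℝ, Sob n Λ → FW W f Λ := by
  let o : E n := WithLp.toLp 2 fun _ => 1
  obtain ⟨y, hy, e⟩ := per_cell (per_shift pW ((1 / 2 : ℝ) • o)) (z - (1 / 2 : ℝ) • o)
  rw [sub_add_cancel] at e
  have c1 : Continuous fun t : ℝ => W (y + t • o) := by fun_prop
  obtain ⟨t, h1, h2, h3⟩ := ((((c1.tendsto (1 / 2)).eventually (lt_mem_nhds
    (show 0 < W _ from e ▸ (W0 z).lt_of_ne' hz))).filter_mono nhdsWithin_le_nhds).and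
      ((eventually_all.2 fun i => (Ioo_mem_nhdsGT (show 1 / 2 < 1 - y i by linarith [(hy i).2]) :
        ∀ᶠ t in 𝓝[>] (1 / 2 : ℝ), t ∈ Ioo (1 / 2) (1 - y i))).and self_mem_nhdsWithin)).exists
  obtain ⟨ρ, ρ0, hρ⟩ := Metric.eventually_nhds_iff.1
    (hW.continuousAt.eventually (lt_mem_nhds (half_lt_self h1)))
  obtain ⟨ε, a1, a2⟩ := ((eventually_all.2 fun i => (Ioo_mem_nhdsGT (show 0 < min (y i + t)
    (1 - (y i + t)) / 2 from half_pos (lt_min (by linarith [(hy i).1, (h2 i).1])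
      (by linarith [(h2 i).2]))) : ∀ᶠ ε in 𝓝[>] (0 : ℝ), ε ∈ Ioo 0 _)).and
        (Ioo_mem_nhdsGT ρ0)).exists
  obtain ⟨g, hg, pg, g0, gS, g1, hA⟩ := core' hn (x0 := y + t • o) a2.1 fun i => by
    have := (a1 i).2
    rw [lt_div_iff₀ two_pos, lt_min_iff] at this
    simp only [o, PiLp.add_apply, PiLp.smul_apply, smul_eq_mul, mul_one]
    exact ⟨by linarith [this.1], by linarith [this.2]⟩
  obtain ⟨Q, hQ⟩ := per_max pg hg.continuous
  have Q0 := g0 Q
  obtain ⟨A, A0, hA⟩ := hA (W (y + t • o) / 2 / (g Q + 1)) (by positivity)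
  have gW : ∀ x, W (y + t • o) / 2 / (g Q + 1) * g x ≤ W x := fun x => by
    by_cases k : g x = 0
    · simpa [k] using W0 x
    obtain ⟨k, hk⟩ := gS x k
    have := hρ (Metric.mem_ball.1 (Metric.ball_subset_ball a2.2.le hk))
    rw [pW.lat] at this
    rw [div_mul_eq_mul_div, div_le_iff₀ (by positivity)]
    nlinarith [hQ x, g0 x]
  obtain ⟨m, m0, hm⟩ := (isCompact_closedBall (0 : E n) (n + 1)).exists_forall_le'
    (wt_smooth A0 (j + 1)).continuous.continuousOn (a := 0) fun x _ => wt_pos A0 _ x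
  obtain ⟨f, hf, pf, f1, f2, f3, x1, f4⟩ := cut (m := m / 2) (by omega) (wt_smooth A0 (j + 1))
    fun x hx => (half_le_self m0.le).trans (hm x (cell_subset hx))
  refine ⟨f, hf, pf, fun x => (half_pos m0).trans_le (f1 x), fun x => ?_, by simp [f3, wt],
    ⟨x1, by linarith [hm 0 (Metric.mem_closedBall_self (by positivity)), wt_le (n := n) A0 (j + 1) 0]⟩,
    ⟨n * A, by positivity, fun x hx => ?_⟩, fun Λ hS u hu pu τ hτ h => ?_⟩
  · obtain ⟨y, hy, h⟩ := per_cell pf x
    exact h ▸ (f2 y hy).trans (wt_le A0 _ y)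
  · have s0 : 0 ≤ A * (‖x‖ ^ 2) ^ (j + 1) := by positivity
    rw [f3 x hx, wt, mul_assoc, ← inv_pow]
    generalize A * (‖x‖ ^ 2) ^ (j + 1) = s at s0
    have b1 : 1 - s ≤ (1 + s)⁻¹ := by
      rw [← one_div, le_div_iff₀ (by positivity)]
      nlinarith
    have b2 := one_add_mul_le_pow (a := (1 + s)⁻¹ - 1) (by linarith [inv_pos.2 (show 0 < 1 + s by
      positivity)]) n
    rw [add_sub_cancel] at b2
    nlinarith [(Nat.cast_nonneg n : (0 : ℝ) ≤ n)]
  · have cu := hu.continuous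
    have cg := hg.continuous
    have cp := cont_pe (by omega) cu
    have h4 := hA Λ hS u hu pu 0 τ hτ (h.trans (by
      simp only [sub_zero]
      exact setIntegral_mono_on (int_cell (hf.continuous.mul cp))
        (int_cell ((wt_smooth A0 _).continuous.mul cp)) measurableSet_cell
        fun x hx => mul_le_mul_of_nonneg_right (f2 x hx) (by positivity)))
    refine h4.trans (add_le_add_right ?_ _)
    rw [sub_zero]
    refine (mul_le_mul_of_nonneg_left (mean_sq g0 g1 (int_cell (by fun_prop))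
      (int_cell (by fun_prop))) (by positivity)).trans ?_
    rw [← integral_const_mul]
    refine integral_mono (int_cell (by fun_prop)) (int_cell (by fun_prop)) fun x => ?_
    simpa only [mul_assoc] using mul_le_mul_of_nonneg_right (gW x) (sq_nonneg (u x))

theorem split_pow {p s : ℝ} (hp : 1 ≤ p) (hs : 0 < s) (a b : ℝ) :
    (1 + s) ^ (-(p - 1)) * |a| ^ p ≤ |a - b| ^ p + s ^ (-(p - 1)) * |b| ^ p := by
  have s1 : 0 < 1 + s := by positivity
  have h := (convexOn_rpow hp).2 (mem_Ici.2 (show 0 ≤ (1 + s) * |a - b| by positivity))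
    (mem_Ici.2 (show 0 ≤ (1 + s) / s * |b| by positivity)) (show 0 ≤ 1 / (1 + s) by positivity)
    (show 0 ≤ s / (1 + s) by positivity) (by field_simp)
  have h2 : |a| ≤ (1 / (1 + s)) • ((1 + s) * |a - b|) + (s / (1 + s)) • ((1 + s) / s * |b|) := by
    refine le_trans (by simpa using abs_add_le (a - b) b) (le_of_eq ?_)
    simp only [smul_eq_mul]
    field_simp
  have h3 := (Real.rpow_le_rpow (abs_nonneg a) h2 (by linarith)).trans h
  simp only [smul_eq_mul] at h3
  rw [Real.mul_rpow s1.le (abs_nonneg _), Real.mul_rpow (by positivity) (abs_nonneg _),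
    Real.div_rpow s1.le hs.le] at h3
  have := Real.rpow_pos_of_pos s1 p
  have := Real.rpow_pos_of_pos hs p
  rw [Real.rpow_neg s1.le, Real.rpow_neg hs.le, Real.rpow_sub_one s1.ne', Real.rpow_sub_one hs.ne',
    inv_mul_le_iff₀ (by positivity)]
  refine h3.trans_eq ?_
  field_simp

theorem prof1 (hn : 5 ≤ n) : ∃ (F g : E n → ℝ) (M : ℝ), ContDiff ℝ (⊤ : ℕ∞) F ∧
    ContDiff ℝ (⊤ : ℕ∞) g ∧ Per F ∧ Per g ∧ (∀ x, 0 ≤ F x) ∧ (∀ x, F x ≤ 1) ∧ F 0 = 1 ∧
    (∃ x, F x = 0) ∧ (∀ x, 0 ≤ g x) ∧ g 0 = 0 ∧ ∫ x in cell n, g x = 1 ∧ 0 ≤ M ∧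
    ∀ Λ : ℝ, Sob n Λ → Sm (fun _ => 1) (fun _ => 0) F g M Λ := by
  have n3 : 3 ≤ n := by omega
  have p2 := pe_gt n3
  obtain ⟨g, hg, pg, g0, gS, g1, hA⟩ := core' (j := 0) (n := n) (by omega) (ε := 1 / 8)
    (x0 := WithLp.toLp 2 fun _ => 1 / 2) (by norm_num) fun i => by norm_num
  obtain ⟨A, A0, hA⟩ := hA 1 one_pos
  obtain ⟨F, hF, pF, f1, f2, f3, f4⟩ := cut (m := 0) (by omega)
    (F := fun x : E n => wt A 1 x * (1 + ‖x‖ ^ 2) ^ (-(pe n - 1))) ((wt_smooth A0 1).mul
      ((contDiff_const.add (contDiff_norm_sq ℝ)).rpow_const_of_ne fun x => by positivity))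
    fun x _ => mul_nonneg (wt_pos A0 1 x).le (by positivity)
  have iM : IntegrableOn (fun x : E n => (‖x‖ ^ 2) ^ (-(pe n - 1))) (cell n) := by
    refine integrableOn_cell (locallyIntegrable_of_norm_le_rpow (C := 1) (α := 2 * (pe n - 1))
      (by simpa using (by omega : 1 ≤ n)) ?_ (Eventually.of_forall fun x => ?_)
      (Measurable.aestronglyMeasurable (by fun_prop)))
    · have : (5 : ℝ) ≤ n := by exact_mod_cast hn
      have := (div_lt_iff₀ (sub_two_pos n3)).2 (show 2 * (n : ℝ) < (n / 2 + 1) * (n - 2) by nlinarith)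
      simp only [finrank_euclideanSpace, Fintype.card_fin, pe]
      linarith
    · rw [Real.norm_of_nonneg (by positivity), one_mul, ← Real.rpow_natCast,
        ← Real.rpow_mul (norm_nonneg x)]
      simp only [Nat.cast_ofNat, mul_neg, le_refl]
  refine ⟨F, g, ∫ x in cell n, (‖x‖ ^ 2) ^ (-(pe n - 1)), hF, hg, pF, pg, f1, fun x => ?_,
    by simp [f3, wt], f4, g0, not_not.1 fun h => ?_, g1, integral_nonneg fun x => by positivity,
    fun Λ hS u hu pu τ hτ h => ?_⟩
  · obtain ⟨y, hy, h⟩ := per_cell pF x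
    exact h ▸ (f2 y hy).trans (mul_le_one₀ (wt_le A0 _ y) (by positivity)
      (Real.rpow_le_one_of_one_le_of_nonpos (by simp) (by linarith)))
  · obtain ⟨k, hk⟩ := gS 0 h
    obtain ⟨a, ha⟩ := k.2 ⟨0, by omega⟩
    have h1 := (abs_le_nm _ ⟨0, by omega⟩).trans_lt (mem_ball_iff_norm.1 hk)
    simp only [add_zero, PiLp.sub_apply, ha, abs_lt] at h1
    have h2 : (0 : ℤ) < a := by exact_mod_cast (by linarith [h1.1] : (0 : ℝ) < a)
    have h3 : a < (1 : ℤ) := by exact_mod_cast (by linarith [h1.2] : (a : ℝ) < 1)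
    omega
  · set m := ∫ x in cell n, g x * u x with hm
    have i1 := int_cell (F := fun x => wt A 1 x * |u x - m| ^ pe n)
      ((wt_smooth A0 _).continuous.mul (cont_pe n3 (hu.continuous.sub continuous_const)))
    have h2 : ∫ x in cell n, F x * |u x| ^ pe n ≤ (∫ x in cell n, wt A 1 x * |u x - m| ^ pe n) +
        (∫ x in cell n, (‖x‖ ^ 2) ^ (-(pe n - 1))) * |m| ^ pe n := by
      rw [← integral_mul_const, ← integral_add i1 (iM.mul_const _)]
      have : Nontrivial (E n) := Module.nontrivial_of_finrank_pos (R := ℝ) (by simp; omega)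
      refine setIntegral_mono_on_ae (int_cell (hF.continuous.mul (cont_pe n3 hu.continuous)))
        (i1.add (iM.mul_const _)) measurableSet_cell ?_
      filter_upwards [compl_mem_ae_iff.2 (measure_singleton (0 : E n))] with x hx hc
      have s0 : 0 < ‖x‖ ^ 2 := pow_pos (norm_pos_iff.2 hx) 2
      have a1 := mul_le_mul_of_nonneg_left (split_pow (p := pe n) (by linarith) s0 (u x) m)
        (wt_pos A0 1 x).le
      have a2 := mul_le_mul_of_nonneg_right (f2 x hc) (show 0 ≤ |u x| ^ pe n by positivity)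
      have a3 := mul_le_of_le_one_left (show 0 ≤ (‖x‖ ^ 2) ^ (-(pe n - 1)) * |m| ^ pe n by
        positivity) (wt_le A0 1 x)
      linarith
    simpa [hm] using hA Λ hS u hu pu m τ hτ (by linarith)

end

section

open MeasureTheory Filter Topology Set

variable {n : ℕ} {φ f : E n → ℝ} {c : ℝ}

theorem fw_crit (hn : 3 ≤ n) (hφ : ContDiff ℝ 2 φ) (pφ : Per φ) (h0 : ∀ x, 0 < φ x) (pf : Per f)
    (f1 : ∀ x, f x ≤ 1) {P : E n} (hP : f P = 1) (H : Critical φ f fun _ => c) :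
    FW (fun x => c * φ (x + P) + Lap (ps φ) (x + P) / ps φ (x + P)) (fun x => f (x + P))
      (Ksq n)⁻¹ :=
  (fw_of_lam hn hφ pφ h0 continuous_const (Ksq_pos' hn).le (Lam_eq f1 hP ▸ H.1.ge)).shift
    (fun x i => by simp only [pφ x i, ps_per pφ x i, per_Lap (ps_per pφ) x i]) pf P

theorem cont_pot (hφ : ContDiff ℝ 2 φ) (h0 : ∀ x, 0 < φ x) :
    Continuous fun x => Lap (ps φ) x / ps φ x :=
  (continuous_Lap (ps_smooth hφ h0)).div (ps_smooth hφ h0).continuous fun x => (ps_pos h0 x).ne'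

theorem case1 (hn : 5 ≤ n) (hφ : ContDiff ℝ (⊤ : ℕ∞) φ) (pφ : Per φ) (h0 : ∀ x, 0 < φ x) :
    ∃ f : E n → ℝ, ContDiff ℝ (⊤ : ℕ∞) f ∧ Per f ∧ (∃ x, 0 < f x) ∧ (∃ x y, f x ≠ f y) ∧
      ∀ c : ℝ, (∀ x, 0 < f x) ∨ Coercive φ (fun _ => c) → ¬ Critical φ f fun _ => c := by
  have n3 : 3 ≤ n := by omega
  have cφ := hφ.continuous
  have hψ := ps_smooth hφ h0
  have cψ := hψ.continuous
  obtain ⟨P, hP⟩ := per_min pφ cφ
  have ψP : ∀ x, ps φ P ^ 2 ≤ ps φ x ^ 2 := fun x => pow_le_pow_left₀ (ps_pos h0 P).le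
    (Real.rpow_le_rpow (h0 P).le (hP x) (by linarith [sub_two_pos n3])) 2
  have v0 : ∀ x, 0 < φ x * ps φ x ^ 2 := fun x => mul_pos (h0 x) (pow_pos (ps_pos h0 x) 2)
  obtain ⟨F, g, M, hF, hg, pF, pg, F0, F1, F2, ⟨z, F3⟩, g0, g2, g1, M0, hS⟩ := prof1 hn
  have sh : ContDiff ℝ (⊤ : ℕ∞) fun x : E n => x + -P := contDiff_id.add contDiff_const
  let f : E n → ℝ := fun x => φ P * ps φ P ^ 2 * (F (x + -P) - M * g (x + -P)) / (φ x * ps φ x ^ 2)
  have hf : ContDiff ℝ (⊤ : ℕ∞) f := (contDiff_const.mul ((hF.comp sh).sub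
    (contDiff_const.mul (hg.comp sh)))).div (hφ.mul (hψ.pow 2)) fun x => (v0 x).ne'
  have pf : Per f := fun x i => by
    simp only [f, pφ x i, ps_per pφ x i, per_shift pF (-P) x i, per_shift pg (-P) x i]
  have fP : f P = 1 := by simp [f, F2, g2, (h0 P).ne', (ps_pos h0 P).ne']
  have f1 : ∀ x, f x ≤ 1 := fun x => (div_le_one (v0 x)).2 ((mul_le_of_le_one_right (v0 P).le
    (by nlinarith [F1 (x + -P), g0 (x + -P)])).trans
      (mul_le_mul (hP x) (ψP x) (sq_nonneg _) (h0 x).le))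
  refine ⟨f, hf, pf, ⟨P, fP ▸ one_pos⟩, ⟨z + P, P, fP ▸ (lt_of_le_of_lt (div_nonpos_of_nonpos_of_nonneg
    (mul_nonpos_of_nonneg_of_nonpos (v0 P).le (by simpa [F3] using mul_nonneg M0 (g0 z))) (v0 _).le)
      one_pos).ne⟩, fun c hc H => ?_⟩
  have h2 := hφ.of_le le_top2
  obtain ⟨C, C0, hC⟩ : Coercive φ fun _ => c := hc.elim (fun f0 => coer (g := g) n3 cφ pφ h0
    continuous_const (fun _ _ => rfl) hf.continuous pf f0 (Ksq_pos' n3) ((fw_of_lam n3 h2 pφ h0
      continuous_const (Ksq_pos' n3).le (Lam_eq f1 fP ▸ H.1.ge)).sm n3 h2 pφ h0 continuous_const)) id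
  have S := ((hS _ ((fw_crit n3 h2 pφ h0 pf f1 fP H).sob n3 ((continuous_const.mul cφ).add
    (cont_pot h2 h0) |>.comp (continuous_add_const P)) (hf.continuous.comp (continuous_add_const P))
    (by simpa using fP))).shift (fun _ _ => rfl) (fun _ _ => rfl) pF pg (-P))
  have c0 : 0 < c := by
    have := hC _ _ (h1_of_contDiff (contDiff_const (c := (1 : ℝ))) fun _ _ => rfl)
    have e := intM_eq h0 (fun _ => 1) fun _ => 1 ^ 2
    simp only [one_mul] at e
    rw [energy, e, intM_gr h0, intM_eq h0] at this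
    simp only [D, fderiv_fun_const, one_pow, mul_one, mul_assoc c, integral_const_mul] at this
    simp at this
    nlinarith [vol_pos cφ pφ h0]
  refine (H.2 (fun _ => c / 2) continuous_const (fun _ _ => rfl) (fun _ => by linarith)
    (fun e => by linarith [congrFun e 0]) ⟨C / 2, by positivity, fun w G hw => ?_⟩).not_ge ?_
  · have := hC w G hw
    have hA : 0 ≤ intM φ (gradSq φ G) := by
      rw [intM_gr h0]
      exact integral_nonneg fun x => by positivity
    simp only [energy, intM, mul_assoc, integral_const_mul] at this hA ⊢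
    linarith
  · rw [Lam_eq f1 fP]
    refine le_lam n3 cφ pφ h0 continuous_const (fun _ _ => rfl)
      (F := fun x => φ P * ps φ P ^ 2 * F (x + -P)) (g := fun x => g (x + -P))
      (M := φ P * ps φ P ^ 2 * M) (continuous_const.mul (hF.comp sh).continuous)
      (hg.comp sh).continuous (per_shift pg _) (fun x => mul_nonneg (v0 P).le (F0 _)) (fun x => g0 _)
      ((cell_shift pg _).trans g1) (mul_nonneg (v0 P).le M0) (fun x => ?_) fun u hu pu τ hτ h => ?_
    · rw [mul_assoc, div_mul_cancel₀ _ (v0 x).ne']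
      ring
    · have e : ∀ t : ℝ, |ps φ P * t| ^ pe n = φ P * ps φ P ^ 2 * |t| ^ pe n := fun t => by
        simpa using abs_ps (f := fun _ => 1) n3 h0 P t
      have := S (fun x => ps φ P * u x) (contDiff_const.mul hu) (fun x i => by simp only [pu x i])
        τ hτ (by
          simp only [mul_left_comm _ (ps φ P), integral_const_mul, e]
          convert h using 2
          · ring
          · funext x
            ring)
      simp only [gsq_const_mul (hu.differentiable one_ne_zero), one_mul, zero_mul, integral_zero,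
        add_zero] at this
      have cu := continuous_gsq hu
      refine this.trans (le_add_of_le_of_nonneg (integral_mono (int_cell (by fun_prop))
        (int_cell (by fun_prop)) fun x => mul_le_mul_of_nonneg_right (ψP x) (gsq_nonneg _ _))
        (integral_nonneg fun x => ?_))
      have := h0 x
      positivity

theorem pot_ne (hn : 3 ≤ n) (hφ : ContDiff ℝ 2 φ) (pφ : Per φ) (h0 : ∀ x, 0 < φ x)
    (h : ∀ x, c * φ x + Lap (ps φ) x / ps φ x = 0) (x y : E n) : φ x = φ y := by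
  have hψ := ps_smooth hφ h0
  have pψ := ps_per pφ
  have h1 : ∀ x, Lap (ps φ) x = -c * (φ x * ps φ x) := fun x => by
    have := h x
    have := (ps_pos h0 x).ne'
    field_simp at *
    linarith
  have h2 : ∫ x in cell n, Lap (ps φ) x = 0 := by
    have d : ∀ i, ContDiff ℝ 1 (D i (ps φ)) := fun i => contDiff_D hψ (by norm_num) i
    simp only [Lap]
    rw [integral_finsetSum _ fun i _ => int_cell (continuous_D (d i) i)]
    exact Finset.sum_eq_zero fun i _ => cell_D (d i) (pψ.D i) i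
  simp only [h1, integral_const_mul] at h2
  have h3 := (mul_eq_zero.1 h2).resolve_right (cell_pos (Φ := fun x => φ x * ps φ x)
    (fun x i => by simp only [pψ x i, pφ x i])
    (hφ.continuous.mul hψ.continuous) (fun x => (mul_pos (h0 x) (ps_pos h0 x)).le) (x := 0)
    (mul_pos (h0 0) (ps_pos h0 0)).ne').ne'
  have h4 := cell_ground hψ (contDiff_const (c := (1 : ℝ))) pψ fun _ _ => rfl
  have h5 : gsq (fun _ : E n => (1 : ℝ)) = fun _ => 0 := funext fun x => by simp [gsq, D]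
  simp only [h1, h3, h5, mul_one, mul_zero, zero_mul, neg_zero, integral_zero, add_zero] at h4
  have h6 : ∀ x, gsq (ps φ) x = 0 := fun x => not_not.1 fun k => (cell_pos (per_gsq pψ)
    (continuous_gsq (hψ.of_le (by norm_num))) (gsq_nonneg _) k).ne' h4
  refine Real.rpow_left_injOn (show ((n : ℝ) - 2) / 4 ≠ 0 by linarith [sub_two_pos hn]) (h0 x).le
    (h0 y).le (is_const_of_fderiv_eq_zero (𝕜 := ℝ) (hψ.differentiable two_ne_zero) (fun z => ?_) x y)
  ext v
  simpa [h6] using fderiv_sq_le (ps φ) z v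

theorem case2 {j : ℕ} (hj : n = 4 ∧ j = 0 ∨ 6 ≤ n ∧ j = 1) (hφ : ContDiff ℝ (⊤ : ℕ∞) φ)
    (pφ : Per φ) (h0 : ∀ x, 0 < φ x) (hne : ∃ x y, φ x ≠ φ y) :
    ∃ f : E n → ℝ, ContDiff ℝ (⊤ : ℕ∞) f ∧ Per f ∧ (∀ x, 0 < f x) ∧ (∃ x y, f x ≠ f y) ∧
      ∀ c : ℝ, ¬ Critical φ f fun _ => c := by
  have n3 : 3 ≤ n := by omega
  have cφ := hφ.continuous
  have h2 := hφ.of_le le_top2
  have cb := cont_pot h2 h0
  have cψ := (ps_smooth hφ h0).continuous
  have pb : Per fun x => Lap (ps φ) x / ps φ x := fun x i => by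
    simp only [ps_per pφ x i, per_Lap (ps_per pφ) x i]
  obtain ⟨P, hP⟩ := per_min (w := fun x => Lap (ps φ) x / ps φ x / φ x)
    (fun x i => by simp only [pb x i, pφ x i]) (cb.div cφ fun x => (h0 x).ne')
  set c₀ := -(Lap (ps φ) P / ps φ P / φ P) with hc₀
  let W : E n → ℝ := fun x => (c₀ * φ x + Lap (ps φ) x / ps φ x) / 2
  have cW : Continuous W := by fun_prop
  have pW : Per W := fun x i => by simp only [W, pb x i, pφ x i]
  have W0 : ∀ x, 0 ≤ W x := fun x => by
    have := (le_div_iff₀ (h0 x)).1 (hP x)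
    simp only [W, hc₀]
    linarith
  obtain ⟨z, hz⟩ : ∃ z, W z ≠ 0 := by
    obtain ⟨x, y, h⟩ := hne
    exact not_forall.1 fun k => h (pot_ne (c := c₀) n3 h2 pφ h0 (fun x => by simpa [W] using k x) x y)
  obtain ⟨f, hf, pf, f0, f1, f2, ⟨y, f3⟩, ⟨C, C0, hC⟩, hS⟩ := prof2 (j := j) (W := fun x => W (x + P))
    (by omega) (cW.comp (continuous_add_const P)) (per_shift pW P) (fun x => W0 _) (z := z - P)
    (by simpa using hz)
  have hf' : ContDiff ℝ (⊤ : ℕ∞) fun x => f (x + -P) := hf.comp (contDiff_id.add contDiff_const)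
  have cf := hf'.continuous
  have fP : f (P + -P) = 1 := by simpa using f2
  refine ⟨_, hf', per_shift pf _, fun x => f0 _, ⟨y + P, P, by simpa [f2] using f3.ne⟩,
    fun c H => ?_⟩
  have h3 := fw_crit n3 h2 pφ h0 (per_shift pf _) (fun x => f1 _) fP H
  simp only [add_neg_cancel_right] at h3
  have cV := ((continuous_const (y := c)).mul cφ).add cb |>.comp (continuous_add_const P)
  have h4 := bn h3 cV hf.continuous (fun x => (f0 x).le) (k := j + 1) (by omega) C0 hC
  have h5 : c₀ ≤ c := by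
    rw [zero_add] at h4
    rw [hc₀, ← neg_div, div_le_iff₀ (h0 P)]
    linarith
  have h6 := (hS _ (h3.sob n3 cV hf.continuous f2)).shift (per_shift pW P) pf (-P)
  have ck : Continuous fun x => c₀ - W x / φ x := continuous_const.sub (cW.div cφ fun x => (h0 x).ne')
  have pk : Per fun x => c₀ - W x / φ x := fun x i => by simp only [pW x i, pφ x i]
  have V0 := vol_pos cφ pφ h0
  have h7 := FW.sm (g := fun x => (∫ x in cell n, φ x * ps φ x ^ 2)⁻¹ * (φ x * ps φ x ^ 2)) n3 h2 pφ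
    h0 ck (by
      convert h6 using 2 with x
      rw [neg_add_cancel_right, sub_mul, div_mul_cancel₀ _ (h0 x).ne']
      simp only [W]
      ring)
  refine (H.2 _ ck pk (fun x => by linarith [div_nonneg (W0 x) (h0 x).le]) (fun e => ?_)
    (coer n3 cφ pφ h0 ck pk cf (per_shift pf _) (fun x => f0 _) (Ksq_pos' n3) h7)).not_ge ?_
  · linarith [congrFun e z, div_pos ((W0 z).lt_of_ne' hz) (h0 z)]
  · rw [Lam_eq (f := fun x => f (x + -P)) (fun x => f1 _) fP]
    refine le_lam n3 cφ pφ h0 ck pk (by fun_prop) (by fun_prop)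
      (fun x i => by simp only [pφ x i, ps_per pφ x i]) (fun x => ?_) (fun x => ?_)
      (by rw [integral_const_mul, inv_mul_cancel₀ V0.ne']) le_rfl (fun x => by simp) h7
    · have := f0 (x + -P)
      have := h0 x
      positivity
    · have := h0 x
      positivity

end

end Pool.Agent.P.MP_80466e_an.Hd
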